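import Pool.Agent.T6.H77.DC.BAS

/-!
# Moves preserve the closure of the rational points (module CLO, helper38, after helper51, helper94)
-/

set_option autoImplicit false

namespace Pool.Agent.T6.H77.DC

open Topology Filter

namespace CLO

section alg

variable {k : Type} [Field k] {n : ℕ} (c : (Fin n → Fin 3) → k)

/-- the ternary quadratic form `ω² - F(x_1, ..., u, ..., x_n)` -/
def tq (i : Fin n) (x : Fin n → Fin 2 → k) (ξ : k × (Fin 2 → k)) : k :=
  ξ.1 ^ 2 - qf (cf c i x) ξ.2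

/-- its polar form at the point `p` -/
def tb (i : Fin n) (p : k × (Fin n → Fin 2 → k)) (ξ : k × (Fin 2 → k)) : k :=
  2 * p.1 * ξ.1 - pf (cf c i p.2) (p.2 i) ξ.2

/-- the second point of the line through `p` in direction `ξ` -/
noncomputable def rf (i : Fin n) (ξ : k × (Fin 2 → k)) (p : k × (Fin n → Fin 2 → k)) :
    k × (Fin n → Fin 2 → k) :=
  (p.1 - tb c i p ξ / tq c i p.2 ξ * ξ.1,
    Function.update p.2 i (p.2 i - (tb c i p ξ / tq c i p.2 ξ) • ξ.2))

theorem qf_sub (f : Fin 3 → k) (t : k) (u v : Fin 2 → k) :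
    qf f (u - t • v) = qf f u - t * pf f u v + t ^ 2 * qf f v := by
  simp only [qf_eq, pf, Pi.sub_apply, Pi.smul_apply, smul_eq_mul]; ring

theorem rf_on {i : Fin n} {ξ : k × (Fin 2 → k)} {p : k × (Fin n → Fin 2 → k)}
    (hp : p.1 ^ 2 = fv c p.2) (h : tq c i p.2 ξ ≠ 0) :
    (rf c i ξ p).1 ^ 2 = fv c (rf c i ξ p).2 := by
  simp only [rf]
  rw [fv_update, qf_sub, ← fv_eq, ← hp]
  set t := tb c i p ξ / tq c i p.2 ξ with ht
  have h1 : t * tq c i p.2 ξ = tb c i p ξ := by rw [ht, div_mul_cancel₀ _ h]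
  simp only [tq, tb] at h1
  linear_combination t * h1

theorem mv_step (h2 : (2 : k) ≠ 0) {i : Fin n} {p r : k × (Fin n → Fin 2 → k)}
    (hp : p.1 ^ 2 = fv c p.2) (hr : r.1 ^ 2 = fv c r.2) (h : Mv c i p r) :
    tq c i p.2 (p.1 - r.1, p.2 i - r.2 i) ≠ 0 ∧ rf c i (p.1 - r.1, p.2 i - r.2 i) p = r := by
  obtain ⟨h1, h3⟩ := h
  rw [bl_pf] at h3
  have e1 : r.1 ^ 2 = qf (cf c i p.2) (r.2 i) := by rw [hr, fv_of c h1]
  have e2 : p.1 ^ 2 = qf (cf c i p.2) (p.2 i) := by rw [hp, fv_eq c i]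
  have e3 : qf (cf c i p.2) (p.2 i - r.2 i) = qf (cf c i p.2) (p.2 i) -
      pf (cf c i p.2) (p.2 i) (r.2 i) + qf (cf c i p.2) (r.2 i) := by
    have := qf_sub (cf c i p.2) 1 (p.2 i) (r.2 i)
    rw [one_smul] at this
    rw [this]; ring
  have e4 : pf (cf c i p.2) (p.2 i) (p.2 i - r.2 i) = 2 * qf (cf c i p.2) (p.2 i) -
      pf (cf c i p.2) (p.2 i) (r.2 i) := by
    simp only [qf_eq, pf, Pi.sub_apply]; ring
  have h4 : tq c i p.2 (p.1 - r.1, p.2 i - r.2 i) =
      -(2 * p.1 * r.1 - pf (cf c i p.2) (p.2 i) (r.2 i)) := by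
    simp only [tq]
    rw [e3]
    linear_combination e1 + e2
  have h5 : tb c i p (p.1 - r.1, p.2 i - r.2 i) =
      -(2 * p.1 * r.1 - pf (cf c i p.2) (p.2 i) (r.2 i)) := by
    simp only [tb]
    rw [e4]
    linear_combination 2 * e2
  refine ⟨by rw [h4]; exact neg_ne_zero.2 h3, ?_⟩
  have h6 : tb c i p (p.1 - r.1, p.2 i - r.2 i) / tq c i p.2 (p.1 - r.1, p.2 i - r.2 i) = 1 := by
    rw [h4, h5]
    exact div_self (neg_ne_zero.2 h3)
  simp only [rf]
  rw [h6]
  refine Prod.ext (by simp) ?_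
  simp only [one_smul, sub_sub_cancel]
  funext j
  by_cases hj : j = i
  · rw [hj, Function.update_self]
  · rw [Function.update_of_ne hj, h1 j hj]

theorem stay_step (h2 : (2 : k) ≠ 0) {i : Fin n} {p : k × (Fin n → Fin 2 → k)}
    (hp : p.1 ^ 2 = fv c p.2) (h0 : p.1 ≠ 0) (hi : p.2 i ≠ 0) (hd : ds c i p.2 ≠ 0) :
    ∃ ξ, tq c i p.2 ξ ≠ 0 ∧ rf c i ξ p = p := by
  obtain ⟨u, hu⟩ : ∃ u : Fin 2 → k, p.2 i 0 * u 1 - p.2 i 1 * u 0 ≠ 0 := by
    by_contra hc
    push Not at hc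
    apply hi
    have h1 := hc ![0, 1]
    have h3 := hc ![1, 0]
    simp at h1 h3
    funext j
    fin_cases j
    · exact h1
    · exact h3
  set f := cf c i p.2 with hf
  have e2 : p.1 ^ 2 = qf f (p.2 i) := by rw [hp, fv_eq c i]
  refine ⟨(pf f (p.2 i) u / (2 * p.1), u), ?_, ?_⟩
  · have h3 : (4 * p.1 ^ 2) * tq c i p.2 (pf f (p.2 i) u / (2 * p.1), u) =
        ds c i p.2 * (p.2 i 0 * u 1 - p.2 i 1 * u 0) ^ 2 := by
      have h4 := pf_sq f (p.2 i) u
      simp only [tq, ds]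
      rw [← hf, ← h4, ← e2]
      field_simp
      ring
    intro h5
    rw [h5, mul_zero] at h3
    exact mul_ne_zero hd (pow_ne_zero 2 hu) h3.symm
  · have h3 : tb c i p (pf f (p.2 i) u / (2 * p.1), u) = 0 := by
      simp only [tb]
      rw [← hf]
      field_simp
      ring
    simp only [rf]
    rw [h3]
    simp

/-- a step -/
def XS (i : Fin n) (p q : k × (Fin n → Fin 2 → k)) : Prop :=
  ∃ ξ, tq c i p.2 ξ ≠ 0 ∧ q = rf c i ξ p

end alg

section map

variable {K L : Type} [Field K] [Field L] (σ : K →+* L) {n : ℕ} (c : (Fin n → Fin 3) → K)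

theorem qf_map (f : Fin 3 → K) (u : Fin 2 → K) :
    qf (fun e => σ (f e)) (fun j => σ (u j)) = σ (qf f u) := by
  simp only [qf_eq, map_add, map_mul, map_pow]

theorem pf_map (f : Fin 3 → K) (u v : Fin 2 → K) :
    pf (fun e => σ (f e)) (fun j => σ (u j)) (fun j => σ (v j)) = σ (pf f u v) := by
  simp only [pf, map_add, map_mul, map_ofNat]

theorem cf_map' (i : Fin n) (x : Fin n → Fin 2 → K) :
    cf (fun α => σ (c α)) i (fun i j => σ (x i j)) = fun e => σ (cf c i x e) :=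
  funext fun e => (cf_map σ c i x e).symm

theorem tq_map (i : Fin n) (x : Fin n → Fin 2 → K) (ω : K) (u : Fin 2 → K) :
    tq (fun α => σ (c α)) i (fun i j => σ (x i j)) (σ ω, fun j => σ (u j)) =
      σ (tq c i x (ω, u)) := by
  simp only [tq]
  rw [cf_map', qf_map, map_sub, map_pow]

theorem tb_map (i : Fin n) (w : K) (x : Fin n → Fin 2 → K) (ω : K) (u : Fin 2 → K) :
    tb (fun α => σ (c α)) i (σ w, fun i j => σ (x i j)) (σ ω, fun j => σ (u j)) =
      σ (tb c i (w, x) (ω, u)) := by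
  simp only [tb]
  rw [cf_map', pf_map, map_sub, map_mul, map_mul, map_ofNat]

theorem rf_map (i : Fin n) (w : K) (x : Fin n → Fin 2 → K) (ω : K) (u : Fin 2 → K) :
    rf (fun α => σ (c α)) i (σ ω, fun j => σ (u j)) (σ w, fun i j => σ (x i j)) =
      (σ (rf c i (ω, u) (w, x)).1, fun i' j => σ ((rf c i (ω, u) (w, x)).2 i' j)) := by
  simp only [rf]
  rw [tb_map, tq_map, ← map_div₀]
  refine Prod.ext ?_ ?_
  · simp only [map_sub, map_mul]
  · funext i' j
    by_cases hi : i' = i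
    · subst hi
      simp only [Function.update_self, Pi.sub_apply, Pi.smul_apply, smul_eq_mul, map_sub, map_mul]
    · simp only [Function.update_of_ne hi]

end map

section cont

variable {L : Type} [NontriviallyNormedField L] {n : ℕ} (c : (Fin n → Fin 3) → L)

theorem tq_cont (i : Fin n) : Continuous fun q : (L × (Fin 2 → L)) × (L × (Fin n → Fin 2 → L)) =>
    tq c i q.2.2 q.1 := by
  have h : ∀ e, Continuous fun q : (L × (Fin 2 → L)) × (L × (Fin n → Fin 2 → L)) =>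
      cf c i q.2.2 e := fun e => (cf_cont c i e).comp (continuous_snd.comp continuous_snd)
  have h0 := h 0
  have h1 := h 1
  have h2 := h 2
  simp only [tq, qf_eq]
  fun_prop

theorem tb_cont (i : Fin n) : Continuous fun q : (L × (Fin 2 → L)) × (L × (Fin n → Fin 2 → L)) =>
    tb c i q.2 q.1 := by
  have h : ∀ e, Continuous fun q : (L × (Fin 2 → L)) × (L × (Fin n → Fin 2 → L)) =>
      cf c i q.2.2 e := fun e => (cf_cont c i e).comp (continuous_snd.comp continuous_snd)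
  have h0 := h 0
  have h1 := h 1
  have h2 := h 2
  simp only [tb, pf]
  fun_prop

theorem rf_contAt (i : Fin n) {ξ : L × (Fin 2 → L)} {p : L × (Fin n → Fin 2 → L)}
    (h : tq c i p.2 ξ ≠ 0) :
    ContinuousAt (fun q : (L × (Fin 2 → L)) × (L × (Fin n → Fin 2 → L)) => rf c i q.1 q.2)
      (ξ, p) := by
  have h1 : ContinuousAt (fun q : (L × (Fin 2 → L)) × (L × (Fin n → Fin 2 → L)) =>
      tb c i q.2 q.1 / tq c i q.2.2 q.1) (ξ, p) :=
    (tb_cont c i).continuousAt.div (tq_cont c i).continuousAt h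
  unfold rf
  refine ContinuousAt.prodMk ?_ ?_
  · refine ContinuousAt.sub (by fun_prop) (h1.mul (by fun_prop))
  · refine ContinuousAt.update (by fun_prop) i ?_
    refine ContinuousAt.sub (by fun_prop) (h1.smul (by fun_prop))

end cont

section clo

variable {K : Type} [Field K] {ι : Type} {L : ι → Type} [∀ v, NontriviallyNormedField (L v)]
  (σ : ∀ v, K →+* L v) {n : ℕ} (c : (Fin n → Fin 3) → K)

/-- the rational points -/
def kp : Set (∀ v, L v × (Fin n → Fin 2 → L v)) :=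
  {S | ∃ (w : K) (x : Fin n → Fin 2 → K), w ^ 2 = fv c x ∧
    S = fun v => (σ v w, fun i j => σ v (x i j))}

theorem densx (hσ : DenseRange fun (b : K) (v : ι) => σ v b) (u : ∀ v, L v × (Fin 2 → L v)) :
    u ∈ closure {S : ∀ v, L v × (Fin 2 → L v) | ∃ (ω : K) (w : Fin 2 → K),
      S = fun v => (σ v ω, fun i => σ v (w i))} := by
  have h1 : DenseRange (Prod.map (fun (b : K) (v : ι) => σ v b)
      (Pi.map fun (_ : Fin 2) (b : K) (v : ι) => σ v b)) :=
    hσ.prodMap (DenseRange.piMap fun _ => hσ)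
  let Φ : (∀ v, L v) × (Fin 2 → ∀ v, L v) → ∀ v, L v × (Fin 2 → L v) :=
    fun c v => (c.1 v, fun i => c.2 i v)
  have hΦ : Continuous Φ := by
    refine continuous_pi fun v => Continuous.prodMk ?_ (continuous_pi fun i => ?_)
    · change Continuous fun c : (∀ v, L v) × (Fin 2 → ∀ v, L v) => c.1 v
      fun_prop
    · change Continuous fun c : (∀ v, L v) × (Fin 2 → ∀ v, L v) => c.2 i v
      fun_prop
  have h2 : u = Φ (fun v => (u v).1, fun i v => (u v).2 i) := rfl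
  rw [h2]
  refine map_mem_closure hΦ (h1 (fun v => (u v).1, fun i v => (u v).2 i)) ?_
  rintro _ ⟨⟨ω, w⟩, rfl⟩
  exact ⟨ω, w, rfl⟩

/-- **Steps preserve the closure.** -/
theorem xst (i : Fin n) (hσ : DenseRange fun (b : K) (v : ι) => σ v b)
    {P Q : ∀ v, L v × (Fin n → Fin 2 → L v)} (hP : P ∈ closure (kp σ c))
    (hPQ : ∀ v, XS (fun α => σ v (c α)) i (P v) (Q v)) :
    Q ∈ closure (kp σ c) := by
  classical
  rcases isEmpty_or_nonempty ι with hι | ⟨⟨v₀⟩⟩
  · have : Q = P := Subsingleton.elim _ _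
    rwa [this]
  choose ξ hξ hQ using hPQ
  let Ψ : (∀ v, L v × (Fin 2 → L v)) × (∀ v, L v × (Fin n → Fin 2 → L v)) →
      (∀ v, L v × (Fin n → Fin 2 → L v)) := fun q v =>
    rf (fun α => σ v (c α)) i (q.1 v) (q.2 v)
  have hQ' : Q = Ψ (ξ, P) := funext hQ
  have c1 : ∀ v, Continuous fun q : (∀ v, L v × (Fin 2 → L v)) ×
      (∀ v, L v × (Fin n → Fin 2 → L v)) => q.1 v := fun v => by fun_prop
  have c2 : ∀ v, Continuous fun q : (∀ v, L v × (Fin 2 → L v)) ×
      (∀ v, L v × (Fin n → Fin 2 → L v)) => q.2 v := fun v => by fun_prop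
  have hΨc : ContinuousAt Ψ (ξ, P) := by
    refine continuousAt_pi.2 fun v => ?_
    have h1 := rf_contAt (fun α => σ v (c α)) i (hξ v)
    have h2 : ContinuousAt (fun q : (∀ v, L v × (Fin 2 → L v)) ×
        (∀ v, L v × (Fin n → Fin 2 → L v)) => (q.1 v, q.2 v)) (ξ, P) :=
      ((c1 v).prodMk (c2 v)).continuousAt
    exact ContinuousAt.comp (g := fun q : (L v × (Fin 2 → L v)) × (L v × (Fin n → Fin 2 → L v)) =>
        rf (fun α => σ v (c α)) i q.1 q.2)
      (f := fun q : (∀ v, L v × (Fin 2 → L v)) × (∀ v, L v × (Fin n → Fin 2 → L v)) =>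
        (q.1 v, q.2 v)) h1 h2
  rw [hQ', mem_closure_iff_nhds]
  intro O hO
  have hW : Ψ ⁻¹' O ∩ {q | tq (fun α => σ v₀ (c α)) i (q.2 v₀).2 (q.1 v₀) ≠ 0} ∈ 𝓝 (ξ, P) := by
    refine Filter.inter_mem (hΨc hO) ?_
    have h3 : Continuous fun q : (∀ v, L v × (Fin 2 → L v)) ×
        (∀ v, L v × (Fin n → Fin 2 → L v)) =>
        tq (fun α => σ v₀ (c α)) i (q.2 v₀).2 (q.1 v₀) :=
      (tq_cont (fun α => σ v₀ (c α)) i).comp ((c1 v₀).prodMk (c2 v₀))
    exact h3.continuousAt.eventually_ne (hξ v₀)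
  have hcl : (ξ, P) ∈ closure ({S : ∀ v, L v × (Fin 2 → L v) | ∃ (ω : K) (w : Fin 2 → K),
      S = fun v => (σ v ω, fun i => σ v (w i))} ×ˢ kp σ c) := by
    rw [closure_prod_eq]
    exact ⟨densx σ hσ ξ, hP⟩
  obtain ⟨⟨_, _⟩, ⟨hq1, hq2⟩, ⟨ω, u, rfl⟩, ⟨w, x, hz, rfl⟩⟩ := mem_closure_iff_nhds.1 hcl _ hW
  have hne : tq c i x (ω, u) ≠ 0 := by
    intro h
    apply hq2
    change tq (fun α => σ v₀ (c α)) i (fun i j => σ v₀ (x i j)) (σ v₀ ω, fun j => σ v₀ (u j)) = 0
    rw [tq_map, h, map_zero]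
  refine ⟨_, hq1, (rf c i (ω, u) (w, x)).1, (rf c i (ω, u) (w, x)).2,
    rf_on c (p := (w, x)) hz hne, ?_⟩
  funext v
  exact rf_map (σ v) c i w x ω u

end clo

end CLO

open CLO in
theorem clo : StmCLO := by
  classical
  intro K ι _ L _ σ hσ n c h2 w
  induction w with
  | nil =>
    intro G P Q hG hN hcl
    have : P = Q := by
      funext v
      by_cases hv : v ∈ G
      · exact (hG v hv).2
      · exact (hN v hv).1
    rwa [← this]
  | cons b w ih =>
    intro G P Q hG hN hcl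
    have h2v : ∀ v, (2 : L v) ≠ 0 := fun v hc =>
      h2 ((σ v).injective (by rw [map_ofNat, map_zero, hc]))
    have h : ∀ v, ∃ r, (v ∈ G → r.1 ^ 2 = fv (fun α => σ v (c α)) r.2 ∧
        Mv (fun α => σ v (c α)) b (P v) r ∧ Wd (fun α => σ v (c α)) w r (Q v)) ∧
        (v ∉ G → r = P v) := by
      intro v
      by_cases hv : v ∈ G
      · obtain ⟨r, hr⟩ := (hG v hv).2
        exact ⟨r, fun _ => hr, fun h => absurd hv h⟩
      · exact ⟨P v, fun h => absurd h hv, fun _ => rfl⟩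
    choose R hR1 hR2 using h
    refine ih G R Q (fun v hv => ⟨(hR1 v hv).1, (hR1 v hv).2.2⟩) ?_ ?_
    · intro v hv
      rw [hR2 v hv]
      exact hN v hv
    · change R ∈ closure (kp σ c)
      change P ∈ closure (kp σ c) at hcl
      refine xst σ c b hσ hcl fun v => ?_
      by_cases hv : v ∈ G
      · obtain ⟨h5, h6⟩ := mv_step (fun α => σ v (c α)) (h2v v) (hG v hv).1 (hR1 v hv).1
          (hR1 v hv).2.1
        exact ⟨_, h5, h6.symm⟩
      · rw [hR2 v hv]
        obtain ⟨-, h1, h3, h4⟩ := hN v hv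
        obtain ⟨ξ, h5, h6⟩ := stay_step (fun α => σ v (c α)) (h2v v) (i := b) h1.2 h3 (h1.1 b) (h4 b)
        exact ⟨ξ, h5, h6.symm⟩

end Pool.Agent.T6.H77.DC
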