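import Pool.Agent.T6.H77.DC.BAS

/-!
# Smooth points of the branch locus are limits of points outside of it (module DEN, helper38)
-/

set_option autoImplicit false

namespace Pool.Agent.T6.H77.DC

open Topology Filter

theorem den : StmDEN := by
  intro L _ n c x hx hfx i u hb ε hε
  set f : Fin 3 → L := cf c i x with hf
  set b : L := pf f (x i) u with hbdef
  have hb0 : b ≠ 0 := hb
  have hq0 : qf f (x i) = 0 := by rw [hf, ← fv_eq, hfx]
  set X : L → Fin n → Fin 2 → L := fun w =>
    Function.update x i ((1 - w ^ 2 / b * qf f u / b) • x i + (w ^ 2 / b) • u) with hX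
  have hXc : Continuous X := by
    refine Continuous.update continuous_const i ?_
    fun_prop
  have hX0 : X 0 = x := by
    rw [hX]
    simp
  have hXf : ∀ w, fv c (X w) = w ^ 2 := by
    intro w
    rw [hX, fv_update, qf_comb, ← hf, hq0, ← hbdef]
    field_simp
    ring
  have h1 : ∀ᶠ w in 𝓝[≠] (0 : L), ∀ i' j', ‖X w i' j' - x i' j'‖ < ε := by
    refine Filter.Eventually.filter_mono nhdsWithin_le_nhds ?_
    rw [Filter.eventually_all]
    intro i'
    rw [Filter.eventually_all]
    intro j'
    have h2 : Continuous fun w => ‖X w i' j' - x i' j'‖ := by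
      have : Continuous fun w => X w i' j' := (continuous_apply j').comp
        ((continuous_apply i').comp hXc)
      fun_prop
    have h3 : ‖X 0 i' j' - x i' j'‖ < ε := by
      rw [hX0, sub_self, norm_zero]
      exact hε
    exact h2.continuousAt.eventually (gt_mem_nhds h3)
  have h4 : ∀ᶠ w in 𝓝[≠] (0 : L), ‖w‖ < ε := by
    refine Filter.Eventually.filter_mono nhdsWithin_le_nhds ?_
    have h5 : Continuous fun w : L => ‖w‖ := continuous_norm
    have h6 : ‖(0 : L)‖ < ε := by rw [norm_zero]; exact hε
    exact h5.continuousAt.eventually (gt_mem_nhds h6)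
  have h7 : ∀ᶠ w in 𝓝[≠] (0 : L), w ≠ 0 := eventually_mem_nhdsWithin
  obtain ⟨w, hw1, hw2, hw3⟩ := (h1.and (h4.and h7)).exists
  refine ⟨w, X w, hw3, ⟨fun j => ?_, (hXf w).symm⟩, hw2, hw1⟩
  change X w j ≠ 0
  by_cases hj : j = i
  · rw [hj]
    intro h0
    have h8 := hXf w
    rw [fv_eq c i, h0] at h8
    have h9 : qf (cf c i (X w)) 0 = 0 := by
      rw [qf_eq]; simp
    rw [h9] at h8
    exact hw3 (pow_eq_zero_iff (two_ne_zero) |>.1 h8.symm)
  · rw [hX]
    simp only
    rw [Function.update_of_ne hj]
    exact hx j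

end Pool.Agent.T6.H77.DC
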