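import Pool.Agent.T6.H77.DC.BAS

/-!
# Connectivity over large finite fields (helper94, module FQ)
-/

set_option autoImplicit false

namespace Pool.Agent.T6.H77.DC

namespace FQ

open Polynomial

/-- polynomial functions of degree at most `d` -/
def PD {k : Type} [Field k] (d : ℕ) (f : k → k) : Prop :=
  ∃ p : Polynomial k, p.natDegree ≤ d ∧ ∀ t, f t = p.eval t

section pd

variable {k : Type} [Field k]

theorem PD.const (a : k) : PD 0 (fun _ => a) := ⟨C a, by simp, fun t => by simp⟩

theorem PD.mono {d d' : ℕ} {f : k → k} (h : PD d f) (hd : d ≤ d') : PD d' f := by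
  obtain ⟨p, hp, he⟩ := h
  exact ⟨p, hp.trans hd, he⟩

theorem PD.mul {d d' : ℕ} {f g : k → k} (h : PD d f) (h' : PD d' g) :
    PD (d + d') (fun t => f t * g t) := by
  obtain ⟨p, hp, he⟩ := h
  obtain ⟨q, hq, he'⟩ := h'
  exact ⟨p * q, natDegree_mul_le.trans (add_le_add hp hq), fun t => by
    rw [eval_mul, ← he, ← he']⟩

theorem PD.add {d : ℕ} {f g : k → k} (h : PD d f) (h' : PD d g) :
    PD d (fun t => f t + g t) := by
  obtain ⟨p, hp, he⟩ := h
  obtain ⟨q, hq, he'⟩ := h'
  exact ⟨p + q, natDegree_add_le_of_degree_le hp hq, fun t => by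
    rw [eval_add, ← he, ← he']⟩

theorem PD.sub {d : ℕ} {f g : k → k} (h : PD d f) (h' : PD d g) :
    PD d (fun t => f t - g t) := by
  obtain ⟨p, hp, he⟩ := h
  obtain ⟨q, hq, he'⟩ := h'
  refine ⟨p - q, ?_, fun t => by rw [eval_sub, ← he, ← he']⟩
  exact (natDegree_sub_le p q).trans (max_le hp hq)

theorem PD.sum {β : Type} {d : ℕ} (s : Finset β) (f : β → k → k) (h : ∀ a ∈ s, PD d (f a)) :
    PD d (fun t => ∑ a ∈ s, f a t) := by
  classical
  induction s using Finset.induction_on with
  | empty => simpa using (PD.const (0 : k)).mono (Nat.zero_le d)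
  | insert a s ha ih =>
    have h1 := (h a (Finset.mem_insert_self a s)).add
      (ih fun b hb => h b (Finset.mem_insert_of_mem hb))
    simpa [Finset.sum_insert ha] using h1

theorem PD.prod {β : Type} (d : β → ℕ) (s : Finset β) (f : β → k → k)
    (h : ∀ a ∈ s, PD (d a) (f a)) : PD (∑ a ∈ s, d a) (fun t => ∏ a ∈ s, f a t) := by
  classical
  induction s using Finset.induction_on with
  | empty => simpa using PD.const (1 : k)
  | insert a s ha ih =>
    have h1 := (h a (Finset.mem_insert_self a s)).mul
      (ih fun b hb => h b (Finset.mem_insert_of_mem hb))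
    simpa [Finset.sum_insert ha, Finset.prod_insert ha] using h1

theorem mo_pd (e : Fin 3) : PD 2 (fun t : k => mo e ![1, t]) := by
  fin_cases e
  · exact ((PD.const (1 : k)).mono (Nat.zero_le 2)).imp fun p hp => ⟨hp.1, fun t => by
      rw [← hp.2 t]; simp [mo]⟩
  · exact ⟨X, by simp, fun t => by simp [mo]⟩
  · exact ⟨X ^ 2, by simp, fun t => by simp [mo]⟩

variable {n : ℕ}

/-- vectors of which at most the component `i` varies, as `(1, t)` -/
def Aff (i : Fin n) (X : k → Fin n → Fin 2 → k) : Prop :=
  ∀ l, (∃ u, ∀ t, X t l = u) ∨ (l = i ∧ ∀ t, X t l = ![1, t])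

theorem Aff.const (i : Fin n) (x : Fin n → Fin 2 → k) : Aff i (fun _ : k => x) :=
  fun l => Or.inl ⟨x l, fun _ => rfl⟩

theorem Aff.update (i : Fin n) (r : Fin n → k) :
    Aff i (fun t : k => af (Function.update r i t)) := by
  intro l
  by_cases h : l = i
  · right
    refine ⟨h, fun t => ?_⟩
    subst h
    simp [af]
  · left
    exact ⟨![1, r l], fun t => by simp [af, Function.update_of_ne h]⟩

theorem Aff.hy {i : Fin n} {X Y : k → Fin n → Fin 2 → k} (hX : Aff i X) (hY : Aff i Y) (j : ℕ) :
    Aff i (fun t => hy j (X t) (Y t)) := by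
  intro l
  by_cases h : l.val < j
  · have : ∀ t, DC.hy j (X t) (Y t) l = X t l := fun t => if_pos h
    simp only [this]
    exact hX l
  · have : ∀ t, DC.hy j (X t) (Y t) l = Y t l := fun t => if_neg h
    simp only [this]
    exact hY l

theorem cf_pd (c : (Fin n → Fin 3) → k) (j i : Fin n) {X : k → Fin n → Fin 2 → k} (hX : Aff i X)
    (e : Fin 3) : PD 2 (fun t => cf c j (X t) e) := by
  unfold cf
  refine PD.sum _ _ fun α _ => ?_
  by_cases hα : α j = e
  · simp only [hα, if_true]
    have h1 : PD (∑ l ∈ Finset.univ.erase j, if l = i then 2 else 0)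
        (fun t => ∏ l ∈ Finset.univ.erase j, mo (α l) (X t l)) := by
      refine PD.prod _ _ _ fun l _ => ?_
      rcases hX l with ⟨u, hu⟩ | ⟨hl, hu⟩
      · simp only [hu]
        exact (PD.const _).mono (Nat.zero_le _)
      · subst hl
        simp only [hu, if_true]
        exact mo_pd (k := k) _
    have h2 : ∑ l ∈ Finset.univ.erase j, (if l = i then 2 else 0) ≤ 2 := by
      calc ∑ l ∈ Finset.univ.erase j, (if l = i then 2 else 0)
          ≤ ∑ l : Fin n, (if l = i then 2 else 0) :=
            Finset.sum_le_sum_of_subset (Finset.erase_subset _ _)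
        _ = 2 := by simp
    have h3 := (PD.const (c α)).mul h1
    exact h3.mono (by omega)
  · simp only [hα, if_false]
    exact (PD.const _).mono (Nat.zero_le _)

open Classical in
/-- the minors and the discriminant -/
noncomputable def RR (c : (Fin n → Fin 3) → k) (e e' : Fin n → Fin 3) (r s t : Fin n → k)
    (j : Fin n) : k :=
  if j.val + 1 < n then
    cf c j (hy j.val (af t) (af s)) (e j) * cf c j (hy j.val (af t) (af r)) (e' j) -
      cf c j (hy j.val (af t) (af s)) (e' j) * cf c j (hy j.val (af t) (af r)) (e j)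
  else ds c j (af t)

theorem RR_pd (c : (Fin n → Fin 3) → k) (e e' : Fin n → Fin 3) (i j : Fin n)
    {ρ σ τ : k → Fin n → k} (hρ : Aff i (fun t => af (ρ t))) (hσ : Aff i (fun t => af (σ t)))
    (hτ : Aff i (fun t => af (τ t))) : PD 4 (fun t => RR c e e' (ρ t) (σ t) (τ t) j) := by
  unfold RR
  by_cases h : j.val + 1 < n
  · simp only [h, if_true]
    have h1 := fun e => cf_pd c j i (hτ.hy hσ j.val) e
    have h2 := fun e => cf_pd c j i (hτ.hy hρ j.val) e
    exact ((h1 _).mul (h2 _)).sub ((h1 _).mul (h2 _))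
  · simp only [h, if_false]
    unfold ds
    have h1 := fun e => cf_pd c j i hτ e
    have h2 : PD 4 (fun t => 4 * cf c j (af (τ t)) 0 * cf c j (af (τ t)) 2) := by
      exact (((PD.const (4 : k)).mul (h1 0)).mul (h1 2)).mono (by norm_num)
    have h3 : PD 4 (fun t => cf c j (af (τ t)) 1 ^ 2) := by
      have := (h1 1).mul (h1 1)
      simpa [sq] using this
    exact h3.sub h2

end pd

section hyl

variable {β : Type} {n : ℕ}

theorem hy_zero (y x : Fin n → β) : hy 0 y x = x := by
  funext i
  simp [hy]

theorem hy_n (y x : Fin n → β) : hy n y x = y := by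
  funext i
  simp [hy]

theorem hy_succ (i : Fin n) (y x : Fin n → β) :
    hy (i.val + 1) y x = Function.update (hy i.val y x) i (y i) := by
  funext l
  by_cases h : l = i
  · subst h
    simp [hy]
  · rw [Function.update_of_ne h]
    have h1 : l.val ≠ i.val := fun he => h (Fin.ext he)
    unfold hy
    by_cases h2 : l.val < i.val
    · rw [if_pos h2, if_pos (by omega)]
    · rw [if_neg h2, if_neg (by omega)]

theorem hy_update_le {l : ℕ} (i : Fin n) (h : l ≤ i.val) (y x : Fin n → β) (u : β) :
    hy l (Function.update y i u) x = hy l y x := by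
  funext m
  unfold hy
  by_cases h2 : m.val < l
  · rw [if_pos h2, if_pos h2, Function.update_of_ne]
    rintro rfl
    omega
  · rw [if_neg h2, if_neg h2]

theorem hy_update_succ (i : Fin n) (y x : Fin n → β) (u : β) :
    hy (i.val + 1) (Function.update y i u) x = Function.update (hy i.val y x) i u := by
  rw [hy_succ, hy_update_le i le_rfl, Function.update_self]

theorem hy_self (i : Fin n) (y x : Fin n → β) : hy i.val y x i = x i := by
  simp [hy]

theorem af_update {k : Type} [Field k] (r : Fin n → k) (i : Fin n) (t : k) :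
    af (Function.update r i t) = Function.update (af r) i ![1, t] := by
  funext l
  by_cases h : l = i
  · subst h
    simp [af]
  · simp [af, Function.update_of_ne h]

end hyl

/-- nonzero squares -/
def NS {k : Type} [Field k] (a : k) : Prop := ∃ w, w ≠ 0 ∧ w ^ 2 = a

section walk

variable {k : Type} [Field k] {n : ℕ} (c : (Fin n → Fin 3) → k)

theorem take_succ (i : Fin n) :
    (List.finRange n).take (i.val + 1) = (List.finRange n).take i.val ++ [i] := by
  have h : i.val < (List.finRange n).length := by simp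
  rw [List.take_add_one, List.getElem?_eq_getElem h]
  simp

theorem walk (h2 : (2 : k) ≠ 0) {w : k} {x y : Fin n → Fin 2 → k} (hw : w ≠ 0)
    (hwx : w ^ 2 = fv c x) (hN : ∀ j, j ≤ n → NS (fv c (hy j y x))) :
    ∀ j, j ≤ n → ∃ w', w' ≠ 0 ∧ w' ^ 2 = fv c (hy j y x) ∧
      Wd c ((List.finRange n).take j) (w, x) (w', hy j y x) := by
  intro j
  induction j with
  | zero =>
    intro _
    refine ⟨w, hw, by rw [hy_zero]; exact hwx, ?_⟩
    rw [hy_zero]
    rfl
  | succ j ih =>
    intro hj
    obtain ⟨w₁, h1, h3, h4⟩ := ih (by omega)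
    let i : Fin n := ⟨j, by omega⟩
    obtain ⟨w₂, h5, h6⟩ := hN (j + 1) hj
    have e1 : hy (j + 1) y x = Function.update (hy j y x) i (y i) := hy_succ i y x
    rw [e1, fv_update] at h6
    obtain ⟨w₃, h7, h8, h9⟩ := exists_mv c (i := i) (p := (w₁, hy j y x)) h2 h1 (y i) h5 h6
    refine ⟨w₃, h7, by rw [e1]; exact h8, ?_⟩
    have e2 : (List.finRange n).take (j + 1) = (List.finRange n).take j ++ [i] := take_succ i
    rw [e2]
    refine h4.append c ?_
    rw [e1]
    exact ⟨_, h8, h9, rfl⟩

end walk

end FQ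

open FQ Polynomial in
theorem sel : StmSEL := by
  classical
  intro k _ n d N R v₀ Inv hpoly hR0 hInv hstep
  have key : ∀ m, m ≤ n → ∃ v, Inv m v ∧ (∀ s, R s v ≠ 0) ∧ ∀ j : Fin n, m ≤ j.val → v j = v₀ j := by
    intro m
    induction m with
    | zero => exact fun _ => ⟨v₀, hInv, hR0, fun _ _ => rfl⟩
    | succ m ih =>
      intro hm
      obtain ⟨v, h1, h2, h3⟩ := ih (by omega)
      let i : Fin n := ⟨m, by omega⟩
      obtain ⟨A, hA, hAI⟩ := hstep i v h1 h2 h3
      choose p hp1 hp2 using fun s => hpoly s i v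
      have hp0 : ∀ s, p s ≠ 0 := by
        intro s h0
        apply h2 s
        have := hp2 s (v i)
        rw [Function.update_eq_self, h0, eval_zero] at this
        exact this
      let B : Finset k := Finset.univ.biUnion fun s => (p s).roots.toFinset
      have hB : B.card ≤ N * d := by
        refine Finset.card_biUnion_le.trans ?_
        calc ∑ s, ((p s).roots.toFinset).card ≤ ∑ _s : Fin N, d := by
              refine Finset.sum_le_sum fun s _ => ?_
              exact (Multiset.toFinset_card_le _).trans ((card_roots' _).trans (hp1 s))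
          _ = N * d := by simp
      obtain ⟨t, htA, htB⟩ : ∃ t ∈ A, t ∉ B := by
        by_contra hcon
        push Not at hcon
        have := Finset.card_le_card (show A ⊆ B from hcon)
        omega
      refine ⟨Function.update v i t, hAI t htA, ?_, ?_⟩
      · intro s h0
        apply htB
        rw [Finset.mem_biUnion]
        refine ⟨s, Finset.mem_univ s, ?_⟩
        rw [Multiset.mem_toFinset, mem_roots (hp0 s), IsRoot.def, ← hp2 s t]
        exact h0
      · intro j hj
        rw [Function.update_of_ne]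
        · exact h3 j (by omega)
        · rintro rfl
          change m + 1 ≤ m at hj
          omega
  obtain ⟨v, h1, h2, -⟩ := key n le_rfl
  exact ⟨v, h1, h2⟩

open FQ in
theorem fq (hS : StmSEL) (hW : StmW2) : StmFQ := by
  classical
  intro n hn
  obtain ⟨q₀, hq₀⟩ := hW
  refine ⟨max q₀ (8 * (4 * n + 3)), ?_⟩
  intro k _ _ hk c hG p p' hp hp0 hp' hp'0
  have hk1 : q₀ ≤ Fintype.card k := (le_max_left _ _).trans hk
  have hk2 : 8 * (4 * n + 3) ≤ Fintype.card k := (le_max_right _ _).trans hk
  have h2 := hG.two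
  obtain ⟨r₀, s₀, t₀, hpar, hds⟩ := hG.gp
  have hee : ∀ j : Fin n, ∃ e e' : Fin 3, j.val + 1 < n →
      cf c j (hy j.val (af t₀) (af s₀)) e * cf c j (hy j.val (af t₀) (af r₀)) e' ≠
      cf c j (hy j.val (af t₀) (af s₀)) e' * cf c j (hy j.val (af t₀) (af r₀)) e := by
    intro j
    by_cases hj : j.val + 1 < n
    · obtain ⟨e, e', h⟩ := hpar j hj
      exact ⟨e, e', fun _ => h⟩
    · exact ⟨0, 0, fun h => absurd h hj⟩
  choose e e' hee' using hee
  have hR₀ : ∀ j, RR c e e' r₀ s₀ t₀ j ≠ 0 := by
    intro j
    unfold RR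
    by_cases hj : j.val + 1 < n
    · rw [if_pos hj]
      exact sub_ne_zero.2 (hee' j hj)
    · rw [if_neg hj]
      exact hds j (by omega)
  -- one application of W2
  have hcount : ∀ f g : Fin 3 → k, (∃ (u : Fin 2 → k) (w : k), w ≠ 0 ∧ w ^ 2 = qf f u) →
      (∃ (u : Fin 2 → k) (w : k), w ≠ 0 ∧ w ^ 2 = qf g u) →
      ((∃ e e', f e * g e' ≠ f e' * g e) ∨ f = g) → ∀ b : k,
      ∃ A : Finset k, n * 4 < A.card ∧ ∀ t ∈ A, NS (qf f ![1, t]) ∧ NS (qf g ![1, t]) ∧ t ≠ b := by
    intro f g hf hg hfg b
    have h := hq₀ k h2 hk1 f g hf hg hfg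
    have hfin : {t : k | (∃ w, w ≠ 0 ∧ w ^ 2 = qf f ![1, t]) ∧
      ∃ w, w ≠ 0 ∧ w ^ 2 = qf g ![1, t]}.Finite := Set.toFinite _
    refine ⟨hfin.toFinset.erase b, ?_, ?_⟩
    · rw [Set.ncard_eq_toFinset_card _ hfin] at h
      have := Finset.pred_card_le_card_erase (s := hfin.toFinset) (a := b)
      omega
    · intro t ht
      rw [Finset.mem_erase, Set.Finite.mem_toFinset] at ht
      exact ⟨ht.2.1, ht.2.2, ht.1⟩
  -- selection of r and of s
  have hone : ∀ (x : Fin n → Fin 2 → k), NS (fv c x) → ∀ (R : Fin n → (Fin n → k) → k)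
      (v₀ : Fin n → k), (∀ (s : Fin n) (i : Fin n) (v : Fin n → k),
        ∃ p : Polynomial k, p.natDegree ≤ 4 ∧ ∀ t, R s (Function.update v i t) = p.eval t) →
      (∀ s, R s v₀ ≠ 0) → ∃ v, (∀ l, l ≤ n → NS (fv c (hy l (af v) x))) ∧ ∀ s, R s v ≠ 0 := by
    intro x hx R v₀ hpoly hR
    refine hS k n 4 n R v₀ (fun m v => ∀ l, l ≤ m → NS (fv c (hy l (af v) x))) hpoly hR ?_ ?_
    · intro l hl
      have : l = 0 := by omega
      rw [this, hy_zero]
      exact hx
    · intro i v hInv _ _
      obtain ⟨w, hw, hwx⟩ := hInv i.val le_rfl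
      rw [fv_eq c i] at hwx
      obtain ⟨A, hA, hAt⟩ := hcount (cf c i (hy i.val (af v) x)) (cf c i (hy i.val (af v) x))
        ⟨_, w, hw, hwx⟩ ⟨_, w, hw, hwx⟩ (Or.inr rfl) 0
      refine ⟨A, hA, fun t ht l hl => ?_⟩
      rw [af_update]
      rcases Nat.lt_or_ge l (i.val + 1) with h | h
      · rw [hy_update_le i (by omega)]
        exact hInv l (by omega)
      · have : l = i.val + 1 := by omega
        rw [this, hy_update_succ, fv_update]
        exact (hAt t ht).1
  obtain ⟨r, hr1, hr2⟩ := hone p'.2 ⟨p'.1, hp'0, hp'.2⟩ (fun j r => RR c e e' r s₀ t₀ j) r₀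
    (fun j i v => RR_pd c e e' i j (Aff.update i v) (Aff.const i _) (Aff.const i _)) hR₀
  obtain ⟨s, hs1, hs2⟩ := hone p.2 ⟨p.1, hp0, hp.2⟩ (fun j s => RR c e e' r s t₀ j) s₀
    (fun j i v => RR_pd c e e' i j (Aff.const i _) (Aff.update i v) (Aff.const i _)) hr2
  have hFs : NS (fv c (af s)) := by
    have := hs1 n le_rfl
    rwa [hy_n] at this
  have hFr : NS (fv c (af r)) := by
    have := hr1 n le_rfl
    rwa [hy_n] at this
  -- selection of t
  let last : Fin n := ⟨n - 1, by omega⟩
  obtain ⟨t, ⟨ht1, ht2, ht3⟩, ht4⟩ := hS k n 4 n (fun j t => RR c e e' r s t j) t₀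
    (fun m t => (∀ l, l ≤ m → NS (fv c (hy l (af t) (af s)))) ∧
      (∀ l, l ≤ m → NS (fv c (hy l (af t) (af r)))) ∧ (m = n → t last ≠ s last))
    (fun j i v => RR_pd c e e' i j (Aff.const i _) (Aff.const i _) (Aff.update i v)) hs2
    (by
      refine ⟨fun l hl => ?_, fun l hl => ?_, fun h => absurd h (by omega)⟩
      · have : l = 0 := by omega
        rw [this, hy_zero]
        exact hFs
      · have : l = 0 := by omega
        rw [this, hy_zero]
        exact hFr)
    (by
      rintro i v ⟨hI1, hI2, -⟩ hRv _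
      obtain ⟨w, hw, hwx⟩ := hI1 i.val le_rfl
      obtain ⟨w', hw', hwx'⟩ := hI2 i.val le_rfl
      rw [fv_eq c i] at hwx hwx'
      have hdich : (∃ e e', cf c i (hy i.val (af v) (af s)) e * cf c i (hy i.val (af v) (af r)) e' ≠
          cf c i (hy i.val (af v) (af s)) e' * cf c i (hy i.val (af v) (af r)) e) ∨
          cf c i (hy i.val (af v) (af s)) = cf c i (hy i.val (af v) (af r)) := by
        by_cases hi : i.val + 1 < n
        · left
          have := hRv i
          unfold RR at this
          rw [if_pos hi] at this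
          exact ⟨e i, e' i, sub_ne_zero.1 this⟩
        · right
          refine cf_congr c fun l hl => ?_
          have h1 : l.val ≠ i.val := fun he => hl (Fin.ext he)
          have h3 : l.val < i.val := by omega
          unfold hy
          rw [if_pos h3, if_pos h3]
      obtain ⟨A, hA, hAt⟩ := hcount _ _ ⟨_, w, hw, hwx⟩ ⟨_, w', hw', hwx'⟩ hdich (s last)
      refine ⟨A, hA, fun t ht => ⟨fun l hl => ?_, fun l hl => ?_, fun h => ?_⟩⟩
      · rw [af_update]
        rcases Nat.lt_or_ge l (i.val + 1) with h | h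
        · rw [hy_update_le i (by omega)]
          exact hI1 l (by omega)
        · have : l = i.val + 1 := by omega
          rw [this, hy_update_succ, fv_update]
          exact (hAt t ht).1
      · rw [af_update]
        rcases Nat.lt_or_ge l (i.val + 1) with h | h
        · rw [hy_update_le i (by omega)]
          exact hI2 l (by omega)
        · have : l = i.val + 1 := by omega
          rw [this, hy_update_succ, fv_update]
          exact (hAt t ht).2.1
      · have : last = i := Fin.ext (by change n - 1 = i.val; omega)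
        rw [this, Function.update_self, ← this]
        exact (hAt t ht).2.2)
  -- walks
  have htake : (List.finRange n).take n = List.finRange n := by
    apply List.take_of_length_le
    simp
  obtain ⟨w1, a1, a2, a3⟩ := walk c h2 (w := p'.1) (x := p'.2) (y := af r) hp'0 hp'.2 hr1 n le_rfl
  rw [hy_n] at a2 a3
  rw [htake] at a3
  obtain ⟨V, b1, b2, b3⟩ := walk c h2 (w := w1) (x := af r) (y := af t) a1 a2 ht2 n le_rfl
  rw [hy_n] at b2 b3
  rw [htake] at b3
  obtain ⟨w2, c1, c2, c3⟩ := walk c h2 (w := p.1) (x := p.2) (y := af s) hp0 hp.2 hs1 n le_rfl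
  rw [hy_n] at c2 c3
  rw [htake] at c3
  obtain ⟨w3, d1, d2, d3⟩ := walk c h2 (w := w2) (x := af s) (y := af t) c1 c2 ht1 (n - 1) (by omega)
  have hupd : af t = Function.update (hy (n - 1) (af t) (af s)) last (af t last) := by
    have h1 := hy_succ last (af t) (af s)
    have h3 : last.val + 1 = n := by change n - 1 + 1 = n; omega
    rw [h3, hy_n] at h1
    exact h1
  have hcf : cf c last (af t) = cf c last (hy (n - 1) (af t) (af s)) := by
    refine cf_congr c fun l hl => ?_
    have h1 : l.val ≠ last.val := fun he => hl (Fin.ext he)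
    have h3 : l.val < n - 1 := by
      change l.val ≠ n - 1 at h1
      omega
    unfold hy
    rw [if_pos h3]
  have hmv : Mv c last (w3, hy (n - 1) (af t) (af s)) (V, af t) := by
    refine ⟨fun j hj => ?_, ?_⟩
    · conv_lhs => rw [hupd]
      exact Function.update_of_ne hj _ _
    · intro h0
      have hself : hy (n - 1) (af t) (af s) last = af s last := hy_self last (af t) (af s)
      change 2 * w3 * V - bl c last (hy (n - 1) (af t) (af s))
        (hy (n - 1) (af t) (af s) last) (af t last) = 0 at h0
      rw [hself, bl_pf, ← hcf] at h0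
      have e1 : w3 ^ 2 = qf (cf c last (af t)) (af s last) := by
        rw [d2, fv_eq c last, hself, hcf]
      have e2 : V ^ 2 = qf (cf c last (af t)) (af t last) := by
        rw [b2, fv_eq c last]
      have e3 := pf_sq (cf c last (af t)) (af s last) (af t last)
      rw [← e1, ← e2] at e3
      have e4 : ds c last (af t) ≠ 0 := by
        have := ht4 last
        unfold RR at this
        rwa [if_neg (by change ¬ (n - 1 + 1 < n); omega)] at this
      have e5 : af s last 0 * af t last 1 - af s last 1 * af t last 0 = t last - s last := by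
        simp [af]
      rw [e5] at e3
      have e6 : ds c last (af t) * (t last - s last) ^ 2 = 0 := by
        unfold ds
        rw [← e3]
        linear_combination (-(pf (cf c last (af t)) (af s last) (af t last) + 2 * w3 * V)) * h0
      rcases mul_eq_zero.1 e6 with h | h
      · exact e4 h
      · exact ht3 rfl (sub_eq_zero.1 (pow_eq_zero_iff (two_ne_zero)|>.1 h))
  have hfin : List.finRange n = (List.finRange n).take (n - 1) ++ [last] := by
    have h1 := take_succ last
    have h3 : last.val + 1 = n := by change n - 1 + 1 = n; omega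
    rw [h3, htake] at h1
    exact h1
  refine ⟨(V, af t), ⟨fun i h0 => ?_, b2⟩, b1, ?_, a3.append c b3⟩
  · have := congrFun h0 0
    simp [af] at this
  · refine c3.append c ?_
    rw [hfin]
    exact d3.append c ⟨(V, af t), b2, hmv, rfl⟩

end Pool.Agent.T6.H77.DC
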