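import Pool.Agent.T6.H77.DC.BAS
import Pool.Agent.T6.H77.DW.HU

/-!
# Points with the same reduction are joined by moves (project DC, module LC)
-/

set_option autoImplicit false

namespace Pool.Agent.T6.H77.DC

namespace LC

variable {L k : Type} [NontriviallyNormedField L] [IsUltrametricDist L] [CompleteSpace L]
  [Field k] {π : L → k}

/-- a square root of a value with the reduction of the square of a unit -/
theorem root (h : DW.Res π) (h2 : (2 : k) ≠ 0) {a F : L} (ha : ‖a‖ ≤ 1) (ha0 : π a ≠ 0)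
    (hF : ‖F‖ ≤ 1) (hFa : π F = π a ^ 2) : ∃ W : L, ‖W‖ ≤ 1 ∧ π W = π a ∧ W ^ 2 = F := by
  have hn : ‖a‖ = 1 := h.norm_one_of ha ha0
  have ha00 : a ≠ 0 := h.ne ha0
  have h1 : ‖F - a ^ 2‖ < 1 := by
    rw [← h.ker _ (DW.sub_le1 hF (DW.sq_le1 ha)), h.sub hF (DW.sq_le1 ha), h.sq ha, hFa, sub_self]
  have h3 : ‖F / a ^ 2 - 1‖ < 1 := by
    have e : F / a ^ 2 - 1 = (F - a ^ 2) / a ^ 2 := by
      field_simp
    rw [e, norm_div, norm_pow, hn, one_pow, div_one]
    exact h1
  obtain ⟨ρ, hρ, hρ1⟩ := DW.hens L (h.norm_two h2) (F / a ^ 2) h3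
  have h4 : ‖a * ρ - a‖ < 1 := by
    have e : a * ρ - a = a * (ρ - 1) := by ring
    rw [e, norm_mul, hn, one_mul]
    exact hρ1.trans_lt h3
  obtain ⟨h5, h6⟩ := h.eq_of ha h4
  refine ⟨a * ρ, h5, h6, ?_⟩
  rw [mul_pow, hρ]
  field_simp

theorem hy_zero {β : Type} {n : ℕ} (y x : Fin n → β) : hy 0 y x = x := by
  funext i
  simp [hy]

theorem hy_last {β : Type} {n : ℕ} (y x : Fin n → β) : hy n y x = y := by
  funext i
  simp [hy, i.2]

theorem hy_ne {β : Type} {n : ℕ} (y x : Fin n → β) {j : ℕ} {i : Fin n} (h : i.val ≠ j) :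
    hy (j + 1) y x i = hy j y x i := by
  unfold hy
  by_cases h1 : i.val < j
  · rw [if_pos h1, if_pos (by omega)]
  · rw [if_neg h1, if_neg (by omega)]

end LC

open LC in
theorem lc : StmLC := by
  intro L k _ _ _ _ π h h2 n c hc p p' hp1 hp2 hp1' hp2' e1 e2 h0 hp hp'
  have hyl : ∀ (j : ℕ) (i : Fin n) (b : Fin 2), ‖hy j p'.2 p.2 i b‖ ≤ 1 := by
    intro j i b
    unfold hy
    split_ifs
    · exact hp2' i b
    · exact hp2 i b
  have hyr : ∀ (j : ℕ) (i : Fin n) (b : Fin 2), π (hy j p'.2 p.2 i b) = π (p.2 i b) := by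
    intro j i b
    unfold hy
    split_ifs
    · exact (e2 i b).symm
    · rfl
  have hFr : ∀ j, π (fv c (hy j p'.2 p.2)) = π p.1 ^ 2 := by
    intro j
    rw [← h.sq hp1, hp, fv_red h hc (hyl j), fv_red h hc hp2]
    congr 1
    funext i b
    exact hyr j i b
  have key : ∀ j, j ≤ n → ∃ W : L, ‖W‖ ≤ 1 ∧ π W = π p.1 ∧ W ^ 2 = fv c (hy j p'.2 p.2) ∧
      Wd c (((List.finRange n).take j).flatMap fun i => [i, i]) p (W, hy j p'.2 p.2) := by
    intro j
    induction j with
    | zero =>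
      intro _
      refine ⟨p.1, hp1, rfl, ?_, ?_⟩
      · rw [hy_zero, hp]
      · rw [hy_zero]
        rfl
    | succ j ih =>
      intro hj
      obtain ⟨W, hW1, hW2, hW3, hW4⟩ := ih (by omega)
      obtain ⟨W', hW1', hW2', hW3'⟩ := root h h2 hp1 h0 (fv_le hc (hyl (j + 1))) (hFr (j + 1))
      refine ⟨W', hW1', hW2', hW3', ?_⟩
      have hjn : j < n := by omega
      have et : (List.finRange n).take (j + 1) = (List.finRange n).take j ++ [⟨j, hjn⟩] := by
        rw [List.take_succ_eq_append_getElem (by simpa using hjn)]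
        simp
      rw [et, List.flatMap_append]
      refine Wd.append c hW4 ?_
      have hW0 : W ≠ 0 := h.ne (by rw [hW2]; exact h0)
      refine ⟨(-W, hy j p'.2 p.2), ?_, ?_, ?_⟩
      · change (-W) ^ 2 = _
        rw [neg_sq, hW3]
      · exact flip_mv c (i := ⟨j, hjn⟩) (p := (W, hy j p'.2 p.2)) (h.ne (by
          rw [(two_le h h2).2]; exact h2)) hW3 hW0
      · refine ⟨(W', hy (j + 1) p'.2 p.2), hW3', ⟨?_, ?_⟩, rfl⟩
        · intro i hi
          exact hy_ne _ _ (fun hc => hi (Fin.ext hc))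
        · have hu := hyl j ⟨j, hjn⟩
          have hv := hyl (j + 1) ⟨j, hjn⟩
          obtain ⟨b1, b2⟩ := bl_red h h2 hc (hyl j) ⟨j, hjn⟩ hu hv
          have hnW : ‖(-W)‖ ≤ 1 := by rwa [norm_neg]
          have hnr : π (-W) = - π p.1 := by
            have := h.sub (x := 0) (y := W) (by simp) hW1
            rw [zero_sub, h.zero, zero_sub, hW2] at this
            exact this
          obtain ⟨i2, r2⟩ := two_le h h2
          apply h.ne
          change π (2 * (-W) * W' - bl c ⟨j, hjn⟩ (hy j p'.2 p.2) (hy j p'.2 p.2 ⟨j, hjn⟩)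
            (hy (j + 1) p'.2 p.2 ⟨j, hjn⟩)) ≠ 0
          rw [h.sub (DW.mul_le1 (DW.mul_le1 i2 hnW) hW1') b1, b2,
            h.mul _ _ (DW.mul_le1 i2 hnW) hW1', h.mul _ _ i2 hnW, r2, hnr, hW2']
          have e3 : (fun b => π (hy (j + 1) p'.2 p.2 ⟨j, hjn⟩ b)) =
              fun b => π (hy j p'.2 p.2 ⟨j, hjn⟩ b) := by
            funext b
            rw [hyr, hyr]
          rw [e3, bl_pf, pf_self]
          have e4 := fv_eq (fun α => π (c α)) ⟨j, hjn⟩ (fun i b => π (hy j p'.2 p.2 i b))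
          rw [← e4, ← fv_red h hc (hyl j), hFr]
          have e5 : 2 * -π p.1 * π p.1 - 2 * π p.1 ^ 2 = -(2 * 2 * π p.1 ^ 2) := by ring
          rw [e5]
          exact neg_ne_zero.2 (mul_ne_zero (mul_ne_zero h2 h2) (pow_ne_zero _ h0))
  obtain ⟨W, hW1, hW2, hW3, hW4⟩ := key n le_rfl
  rw [hy_last] at hW3 hW4
  have et : (List.finRange n).take n = List.finRange n := by
    apply List.take_of_length_le
    simp
  rw [et] at hW4
  have hWp : W = p'.1 := by
    have h5 : W ^ 2 = p'.1 ^ 2 := by rw [hW3, hp']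
    rcases sq_eq_sq_iff_eq_or_eq_neg.1 h5 with h6 | h6
    · exact h6
    · exfalso
      have h7 := h.sub (x := 0) (y := p'.1) (by simp) hp1'
      rw [zero_sub, h.zero, zero_sub, ← h6, hW2, ← e1] at h7
      have h8 : 2 * π p.1 = 0 := by linear_combination h7
      exact (mul_ne_zero h2 h0) h8
  rw [hWp] at hW4
  exact hW4

end Pool.Agent.T6.H77.DC
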