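import Pool.Agent.T6.H77.DC.BAS
import Pool.Agent.H341R2.WeilSharp

/-!
# Two binary quadratic forms over a finite field (project DC, module W2)
-/

set_option autoImplicit false

namespace Pool.Agent.T6.H77.DC

namespace W2

open Polynomial Finset

variable {k : Type} [Field k]

/-- the polynomial `f(1, t)` -/
noncomputable def pl (f : Fin 3 → k) : k[X] := C (f 2) * X ^ 2 + C (f 1) * X + C (f 0)

lemma pl_eval (f : Fin 3 → k) (t : k) : (pl f).eval t = qf f ![1, t] := by
  rw [qf_eq, pl]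
  simp
  ring

lemma pl_deg (f : Fin 3 → k) : (pl f).natDegree ≤ 2 := natDegree_quadratic_le

lemma pl_c0 (f : Fin 3 → k) : (pl f).coeff 0 = f 0 := by
  simp [pl]

lemma pl_c1 (f : Fin 3 → k) : (pl f).coeff 1 = f 1 := by
  simp [pl, coeff_C]

lemma pl_c2 (f : Fin 3 → k) : (pl f).coeff 2 = f 2 := by
  simp [pl]

/-- only squares `c` are possible in `P = c h²` -/
def Gq (P : k[X]) : Prop := P ≠ 0 ∧ ∀ (c : k) (h : k[X]), P = C c * h ^ 2 → IsSquare c

lemma gq_of_rep {f : Fin 3 → k} (hf : ∃ (u : Fin 2 → k) (w : k), w ≠ 0 ∧ w ^ 2 = qf f u) :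
    Gq (pl f) := by
  obtain ⟨u, w, hw, hwu⟩ := hf
  have h0 : pl f ≠ 0 := by
    intro h
    apply hw
    have c0 := pl_c0 f
    have c1 := pl_c1 f
    have c2 := pl_c2 f
    rw [h, coeff_zero] at c0 c1 c2
    rw [qf_eq, ← c0, ← c1, ← c2] at hwu
    have : w ^ 2 = 0 := by rw [hwu]; ring
    exact pow_eq_zero_iff two_ne_zero |>.1 this
  refine ⟨h0, ?_⟩
  intro c h he
  have hc : c ≠ 0 := by
    rintro rfl
    apply h0
    rw [he]
    simp
  have hd : h.natDegree ≤ 1 := by
    have h1 := pl_deg f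
    rw [he, natDegree_C_mul hc, natDegree_pow] at h1
    omega
  obtain ⟨β, α, rfl⟩ := exists_eq_X_add_C_of_natDegree_le_one hd
  have he' : pl f = pl ![c * α ^ 2, 2 * c * α * β, c * β ^ 2] := by
    rw [he]
    change _ = C (c * β ^ 2) * X ^ 2 + C (2 * c * α * β) * X + C (c * α ^ 2)
    simp only [C_mul, C_pow]
    have : (C 2 : k[X]) = 2 := rfl
    rw [this]
    ring
  have c0 := pl_c0 f
  have c1 := pl_c1 f
  have c2 := pl_c2 f
  rw [he', pl_c0] at c0
  rw [he', pl_c1] at c1
  rw [he', pl_c2] at c2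
  change c * α ^ 2 = f 0 at c0
  change 2 * c * α * β = f 1 at c1
  change c * β ^ 2 = f 2 at c2
  have e : w ^ 2 = c * (α * u 0 + β * u 1) ^ 2 := by
    rw [hwu, qf_eq, ← c0, ← c1, ← c2]
    ring
  have hl : α * u 0 + β * u 1 ≠ 0 := by
    intro h
    rw [h] at e
    apply hw
    have : w ^ 2 = 0 := by rw [e]; ring
    exact pow_eq_zero_iff two_ne_zero |>.1 this
  refine ⟨w / (α * u 0 + β * u 1), ?_⟩
  rw [div_mul_div_comm, eq_div_iff (mul_ne_zero hl hl)]
  linear_combination -e

lemma gq_mul1 {P Q : k[X]} (hP : Gq P) (hQ : Gq Q) {c a : k} {h p : k[X]}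
    (hp : P = C a * p ^ 2) (e : P * Q = C c * h ^ 2) : IsSquare c := by
  have ha := hP.2 a p hp
  have hPQ : P * Q ≠ 0 := mul_ne_zero hP.1 hQ.1
  have hc : c ≠ 0 := by
    rintro rfl
    apply hPQ
    rw [e]
    simp
  have ha0 : a ≠ 0 := by
    rintro rfl
    apply hP.1
    rw [hp]
    simp
  have hp0 : p ≠ 0 := by
    rintro rfl
    apply hP.1
    rw [hp]
    simp
  have hcc : (C c⁻¹ : k[X]) * C c = 1 := by
    rw [← C_mul, inv_mul_cancel₀ hc, C_1]
  have hd : p ^ 2 ∣ h ^ 2 := by
    refine ⟨C c⁻¹ * (C a * Q), ?_⟩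
    have : h ^ 2 = C c⁻¹ * (C c * h ^ 2) := by
      rw [← mul_assoc, hcc, one_mul]
    rw [this, ← e, hp]
    ring
  obtain ⟨m, hm⟩ := (IsIntegrallyClosed.pow_dvd_pow_iff two_ne_zero).1 hd
  have e2 : C a * Q = C c * m ^ 2 := by
    have h2 : p ^ 2 ≠ 0 := pow_ne_zero _ hp0
    apply mul_left_cancel₀ h2
    rw [hp, hm] at e
    linear_combination e
  have haa : (C a⁻¹ : k[X]) * C a = 1 := by
    rw [← C_mul, inv_mul_cancel₀ ha0, C_1]
  have e3 : Q = C (a⁻¹ * c) * m ^ 2 := by
    have : Q = C a⁻¹ * (C a * Q) := by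
      rw [← mul_assoc, haa, one_mul]
    rw [this, e2, C_mul]
    ring
  have h5 := hQ.2 _ _ e3
  have h6 : c = a * (a⁻¹ * c) := by
    field_simp
  rw [h6]
  exact ha.mul h5

lemma gq_mul2 {P Q : k[X]} (hP : Gq P) (hQ : Gq Q) (hP2 : P.natDegree ≤ 2)
    (hQ2 : Q.natDegree ≤ 2) (hPs : ∀ (a : k) (p : k[X]), P ≠ C a * p ^ 2)
    (hn : ∀ b : k, Q ≠ C b * P) {c : k} {h : k[X]} (e : P * Q = C c * h ^ 2) : False := by
  have hPQ : P * Q ≠ 0 := mul_ne_zero hP.1 hQ.1
  have hc : c ≠ 0 := by
    rintro rfl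
    apply hPQ
    rw [e]
    simp
  have hcc : (C c⁻¹ : k[X]) * C c = 1 := by
    rw [← C_mul, inv_mul_cancel₀ hc, C_1]
  have hsq : Squarefree P := by
    rintro x ⟨y, hy⟩
    have hx0 : x ≠ 0 := by
      rintro rfl
      apply hP.1
      rw [hy]
      simp
    have hy0 : y ≠ 0 := by
      rintro rfl
      apply hP.1
      rw [hy]
      simp
    have hdeg : P.natDegree = x.natDegree + x.natDegree + y.natDegree := by
      rw [hy, natDegree_mul (mul_ne_zero hx0 hx0) hy0, natDegree_mul hx0 hx0]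
    by_cases hx : x.natDegree = 0
    · rw [eq_C_of_natDegree_eq_zero hx] at hx0 ⊢
      exact isUnit_C.2 (IsUnit.mk0 _ (by
        intro h
        apply hx0
        rw [h, C_0]))
    · exfalso
      have hy1 : y.natDegree = 0 := by omega
      apply hPs (y.coeff 0) x
      rw [hy]
      conv_lhs => rw [eq_C_of_natDegree_eq_zero hy1]
      ring
  have hdP : 1 ≤ P.natDegree := by
    by_contra hlt
    have : P.natDegree = 0 := by omega
    apply hPs (P.coeff 0) 1
    conv_lhs => rw [eq_C_of_natDegree_eq_zero this]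
    ring
  have hd : P ∣ h ^ 2 := by
    refine ⟨C c⁻¹ * Q, ?_⟩
    have : h ^ 2 = C c⁻¹ * (C c * h ^ 2) := by
      rw [← mul_assoc, hcc, one_mul]
    rw [this, ← e]
    ring
  obtain ⟨m, hm⟩ := (hsq.dvd_pow_iff_dvd two_ne_zero).1 hd
  have e2 : Q = C c * P * m ^ 2 := by
    apply mul_left_cancel₀ hP.1
    rw [hm] at e
    linear_combination e
  have hm0 : m ≠ 0 := by
    rintro rfl
    apply hQ.1
    rw [e2]
    simp
  have hdQ : Q.natDegree = P.natDegree + 2 * m.natDegree := by
    rw [e2, natDegree_mul (mul_ne_zero (by simpa using hc) hP.1) (pow_ne_zero _ hm0),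
      natDegree_C_mul hc, natDegree_pow]
  have hm1 : m.natDegree = 0 := by omega
  apply hn (c * m.coeff 0 ^ 2)
  rw [e2]
  conv_lhs => rw [eq_C_of_natDegree_eq_zero hm1]
  rw [C_mul, C_pow]
  ring

lemma gq_mul {f g : Fin 3 → k} (hf : Gq (pl f)) (hg : Gq (pl g))
    (h : (∃ e e', f e * g e' ≠ f e' * g e) ∨ f = g) : Gq (pl f * pl g) := by
  refine ⟨mul_ne_zero hf.1 hg.1, ?_⟩
  intro c m he
  by_cases hs : ∃ (a : k) (p : k[X]), pl f = C a * p ^ 2
  · obtain ⟨a, p, hp⟩ := hs
    exact gq_mul1 hf hg hp he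
  · push Not at hs
    rcases h with ⟨e, e', hee⟩ | h
    · exfalso
      refine gq_mul2 hf hg (pl_deg f) (pl_deg g) hs ?_ he
      intro b hb
      apply hee
      have hco : ∀ e, g e = b * f e := by
        intro e
        fin_cases e
        · change g 0 = b * f 0
          rw [← pl_c0 g, ← pl_c0 f, hb, coeff_C_mul]
        · change g 1 = b * f 1
          rw [← pl_c1 g, ← pl_c1 f, hb, coeff_C_mul]
        · change g 2 = b * f 2
          rw [← pl_c2 g, ← pl_c2 f, hb, coeff_C_mul]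
      rw [hco, hco]
      ring
    · subst h
      have h1 := congrArg leadingCoeff he
      rw [leadingCoeff_mul, leadingCoeff_mul, leadingCoeff_C, leadingCoeff_pow] at h1
      have hl : (pl f).leadingCoeff ≠ 0 := leadingCoeff_ne_zero.2 hf.1
      have hm : m.leadingCoeff ≠ 0 := by
        intro h
        rw [h] at h1
        exact mul_ne_zero hl hl (by rw [h1]; ring)
      refine ⟨(pl f).leadingCoeff / m.leadingCoeff, ?_⟩
      rw [div_mul_div_comm, eq_div_iff (mul_ne_zero hm hm), h1]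
      ring

lemma S_lower [Fintype k] [DecidableEq k] (hF : ringChar k ≠ 2) {P : k[X]} (hP : Gq P)
    (hd : P.natDegree ≤ 4) :
    -(3 * Real.sqrt (Fintype.card k)) ≤ ∑ t : k, (quadraticChar k (P.eval t) : ℝ) := by
  by_cases hs : ∃ (a : k) (p : k[X]), P = C a * p ^ 2
  · obtain ⟨a, p, hp⟩ := hs
    obtain ⟨d, hd⟩ := hP.2 a p hp
    have h1 : 0 ≤ ∑ t : k, (quadraticChar k (P.eval t) : ℝ) := by
      refine sum_nonneg fun t _ => ?_
      have e : P.eval t = (d * p.eval t) * (d * p.eval t) := by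
        rw [hp, hd]
        simp
        ring
      rw [e, map_mul]
      push_cast
      exact mul_self_nonneg _
    have h2 : 0 ≤ Real.sqrt (Fintype.card k) := Real.sqrt_nonneg _
    linarith
  · push Not at hs
    have hd1 : 1 ≤ P.natDegree := by
      by_contra hlt
      have : P.natDegree = 0 := by omega
      apply hs (P.coeff 0) 1
      conv_lhs => rw [eq_C_of_natDegree_eq_zero this]
      ring
    have h3 := Pool.Agent.H341R2.Sharp.weil_sharp hF P hd1 hs
    have h4 := (abs_le.1 h3).1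
    have h5 : ((P.natDegree : ℝ) - 1) * Real.sqrt (Fintype.card k) ≤
        3 * Real.sqrt (Fintype.card k) := by
      apply mul_le_mul_of_nonneg_right _ (Real.sqrt_nonneg _)
      have : (P.natDegree : ℝ) ≤ 4 := by exact_mod_cast hd
      linarith
    linarith

end W2

open Polynomial Finset W2 in
theorem w2 : StmW2 := by
  refine ⟨10 ^ 4, ?_⟩
  intro k _ _ h2 hq f g hf hg hfg
  classical
  have hchar : ringChar k ≠ 2 := by
    intro h
    apply h2
    have := ringChar.spec k 2
    have h3 : ((2 : ℕ) : k) = 0 := this.2 (by rw [h])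
    exact_mod_cast h3
  have Gf := gq_of_rep hf
  have Gg := gq_of_rep hg
  have Gfg := gq_mul Gf Gg hfg
  have d1 := pl_deg f
  have d2 := pl_deg g
  have d3 : (pl f * pl g).natDegree ≤ 4 := natDegree_mul_le.trans (by omega)
  have S1 := S_lower hchar Gf (by omega)
  have S2 := S_lower hchar Gg (by omega)
  have S3 := S_lower hchar Gfg d3
  set N : Set k := {t : k | (∃ w, w ≠ 0 ∧ w ^ 2 = qf f ![1, t]) ∧
    ∃ w, w ≠ 0 ∧ w ^ 2 = qf g ![1, t]} with hN
  set A : Finset k := univ.filter (fun t => t ∈ N) with hA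
  have hAN : N.ncard = A.card := by
    rw [← Set.ncard_coe_finset]
    congr 1
    ext t
    simp [hA]
  set R : Finset k := (pl f * pl g).roots.toFinset with hR
  have hRc : R.card ≤ 4 := (Multiset.toFinset_card_le _).trans ((card_roots' _).trans d3)
  have hsum : ∑ t : k, (1 + (quadraticChar k ((pl f).eval t) : ℝ)) *
      (1 + (quadraticChar k ((pl g).eval t) : ℝ)) =
      (Fintype.card k : ℝ) + ∑ t : k, (quadraticChar k ((pl f).eval t) : ℝ) +
        ∑ t : k, (quadraticChar k ((pl g).eval t) : ℝ) +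
        ∑ t : k, (quadraticChar k ((pl f * pl g).eval t) : ℝ) := by
    have : ∀ t : k, (1 + (quadraticChar k ((pl f).eval t) : ℝ)) *
      (1 + (quadraticChar k ((pl g).eval t) : ℝ)) = 1 + (quadraticChar k ((pl f).eval t) : ℝ) +
        (quadraticChar k ((pl g).eval t) : ℝ) + (quadraticChar k ((pl f * pl g).eval t) : ℝ) := by
      intro t
      rw [eval_mul, map_mul]
      push_cast
      ring
    simp only [this, sum_add_distrib]
    simp
  have hle : ∀ x : k, (quadraticChar k x : ℝ) ≤ 1 ∧ -1 ≤ (quadraticChar k x : ℝ) := by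
    intro x
    by_cases hx : x = 0
    · rw [hx]
      simp
    · rcases quadraticChar_dichotomy hx with h | h <;> rw [h] <;> norm_num
  have hneg : ∀ x : k, x ≠ 0 → (¬ ∃ w, w ≠ 0 ∧ w ^ 2 = x) → (quadraticChar k x : ℝ) = -1 := by
    intro x hx hno
    rcases quadraticChar_dichotomy hx with h | h
    · exfalso
      rw [quadraticChar_one_iff_isSquare hx] at h
      obtain ⟨w, hw⟩ := h
      apply hno
      refine ⟨w, ?_, by rw [hw]; ring⟩
      rintro rfl
      apply hx
      rw [hw]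
      ring
    · rw [h]
      norm_num
  have hterm : ∀ t : k, (1 + (quadraticChar k ((pl f).eval t) : ℝ)) *
      (1 + (quadraticChar k ((pl g).eval t) : ℝ)) ≤
      (if t ∈ A then 4 else 0) + (if t ∈ R then 4 else 0) := by
    intro t
    obtain ⟨a1, a2⟩ := hle ((pl f).eval t)
    obtain ⟨b1, b2⟩ := hle ((pl g).eval t)
    have h4 : (1 + (quadraticChar k ((pl f).eval t) : ℝ)) *
      (1 + (quadraticChar k ((pl g).eval t) : ℝ)) ≤ 4 := by nlinarith
    by_cases hA' : t ∈ A
    · rw [if_pos hA']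
      split_ifs <;> linarith
    · rw [if_neg hA']
      by_cases hR' : t ∈ R
      · rw [if_pos hR']
        linarith
      · rw [if_neg hR']
        have hne : (pl f).eval t ≠ 0 ∧ (pl g).eval t ≠ 0 := by
          rw [hR, Multiset.mem_toFinset, mem_roots Gfg.1, IsRoot.def, eval_mul] at hR'
          exact ⟨fun h => hR' (by rw [h, zero_mul]), fun h => hR' (by rw [h, mul_zero])⟩
        rw [hA, mem_filter] at hA'
        simp only [mem_univ, true_and] at hA'
        rw [hN, Set.mem_ofPred_eq] at hA'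
        by_cases hf1 : ∃ w, w ≠ 0 ∧ w ^ 2 = qf f ![1, t]
        · have hg1 : ¬ ∃ w, w ≠ 0 ∧ w ^ 2 = qf g ![1, t] := fun h => hA' ⟨hf1, h⟩
          rw [← pl_eval] at hg1
          rw [hneg _ hne.2 hg1]
          simp
        · rw [← pl_eval] at hf1
          rw [hneg _ hne.1 hf1]
          simp
  have hup : ∑ t : k, (1 + (quadraticChar k ((pl f).eval t) : ℝ)) *
      (1 + (quadraticChar k ((pl g).eval t) : ℝ)) ≤ 4 * A.card + 16 := by
    refine (sum_le_sum fun t _ => hterm t).trans ?_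
    rw [sum_add_distrib, ← sum_filter, ← sum_filter]
    simp only [sum_const, nsmul_eq_mul]
    have e1 : (univ.filter fun t : k => t ∈ A) = A := by
      ext t
      simp
    have e2 : (univ.filter fun t : k => t ∈ R) = R := by
      ext t
      simp
    rw [e1, e2]
    have : (R.card : ℝ) ≤ 4 := by exact_mod_cast hRc
    linarith
  have hq' : (10 : ℝ) ^ 4 ≤ Fintype.card k := by exact_mod_cast hq
  have hs : (100 : ℝ) ≤ Real.sqrt (Fintype.card k) := by
    rw [Real.le_sqrt (by norm_num) (by positivity)]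
    linarith
  have hss : Real.sqrt (Fintype.card k) * Real.sqrt (Fintype.card k) = Fintype.card k :=
    Real.mul_self_sqrt (by positivity)
  have hfin : (Fintype.card k : ℝ) ≤ 8 * A.card := by
    rw [hsum] at hup
    nlinarith
  rw [hAN]
  exact_mod_cast hfin

end Pool.Agent.T6.H77.DC
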