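import Pool.Agent.T6.H77.DC.Stm
import Pool.Agent.T6.H77.DW.LINK
import Pool.Agent.T6.H77.DW.LIFT

/-!
# Double covers of products of projective lines: basic lemmas (helper77)
-/

set_option autoImplicit false

namespace Pool.Agent.T6.H77.DC

section alg

variable {k : Type} [Field k] {n : ℕ} (c : (Fin n → Fin 3) → k)

/-- the polar form of a binary quadratic form -/
def pf (f : Fin 3 → k) (u v : Fin 2 → k) : k :=
  2 * f 0 * u 0 * v 0 + f 1 * (u 0 * v 1 + u 1 * v 0) + 2 * f 2 * u 1 * v 1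

theorem bl_pf (i : Fin n) (x : Fin n → Fin 2 → k) (u v : Fin 2 → k) :
    bl c i x u v = pf (cf c i x) u v := rfl

theorem mo_zero (e : Fin 3) : mo e (0 : Fin 2 → k) = 0 := by
  fin_cases e <;> simp [mo]

theorem mo_smul (e : Fin 3) (b : k) (u : Fin 2 → k) : mo e (b • u) = b ^ 2 * mo e u := by
  fin_cases e <;> simp [mo] <;> ring

theorem qf_eq (f : Fin 3 → k) (u : Fin 2 → k) :
    qf f u = f 0 * u 0 ^ 2 + f 1 * (u 0 * u 1) + f 2 * u 1 ^ 2 := by
  simp [qf, mo, Fin.sum_univ_three]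

theorem pf_self (f : Fin 3 → k) (u : Fin 2 → k) : pf f u u = 2 * qf f u := by
  rw [qf_eq, pf]; ring

theorem pf_symm (f : Fin 3 → k) (u v : Fin 2 → k) : pf f u v = pf f v u := by
  rw [pf, pf]; ring

theorem qf_comb (f : Fin 3 → k) (a b : k) (u v : Fin 2 → k) :
    qf f (a • u + b • v) = a ^ 2 * qf f u + a * b * pf f u v + b ^ 2 * qf f v := by
  simp only [qf_eq, pf, Pi.add_apply, Pi.smul_apply, smul_eq_mul]; ring

theorem pf_comb (f : Fin 3 → k) (a b : k) (w u v : Fin 2 → k) :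
    pf f w (a • u + b • v) = a * pf f w u + b * pf f w v := by
  simp only [pf, Pi.add_apply, Pi.smul_apply, smul_eq_mul]; ring

theorem pf_smul_right (f : Fin 3 → k) (b : k) (w u : Fin 2 → k) :
    pf f w (b • u) = b * pf f w u := by
  simp only [pf, Pi.smul_apply, smul_eq_mul]; ring

theorem pf_smul_left (f : Fin 3 → k) (b : k) (w u : Fin 2 → k) :
    pf f (b • w) u = b * pf f w u := by
  simp only [pf, Pi.smul_apply, smul_eq_mul]; ring

theorem qf_smul (f : Fin 3 → k) (b : k) (u : Fin 2 → k) : qf f (b • u) = b ^ 2 * qf f u := by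
  simp only [qf_eq, Pi.smul_apply, smul_eq_mul]; ring

/-- the discriminant identity -/
theorem pf_sq (f : Fin 3 → k) (u v : Fin 2 → k) : pf f u v ^ 2 - 4 * qf f u * qf f v =
    (f 1 ^ 2 - 4 * f 0 * f 2) * (u 0 * v 1 - u 1 * v 0) ^ 2 := by
  simp only [qf_eq, pf]; ring

theorem cf_congr {i : Fin n} {x y : Fin n → Fin 2 → k} (h : ∀ j, j ≠ i → x j = y j) :
    cf c i x = cf c i y := by
  funext e
  unfold cf
  refine Finset.sum_congr rfl fun α _ => ?_
  split_ifs
  · congr 1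
    refine Finset.prod_congr rfl fun j hj => ?_
    rw [h j (Finset.ne_of_mem_erase hj)]
  · rfl

theorem fv_eq (i : Fin n) (x : Fin n → Fin 2 → k) : fv c x = qf (cf c i x) (x i) := by
  unfold fv qf cf
  simp only [Finset.sum_mul]
  rw [Finset.sum_comm]
  refine Finset.sum_congr rfl fun α _ => ?_
  rw [Finset.sum_eq_single (α i)]
  · rw [if_pos rfl, ← Finset.mul_prod_erase Finset.univ (fun j => mo (α j) (x j))
      (Finset.mem_univ i)]
    ring
  · intro e _ he
    rw [if_neg (Ne.symm he), zero_mul]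
  · intro h
    exact absurd (Finset.mem_univ _) h

theorem cf_update (i : Fin n) (x : Fin n → Fin 2 → k) (u : Fin 2 → k) :
    cf c i (Function.update x i u) = cf c i x :=
  cf_congr c fun j hj => Function.update_of_ne hj _ _

theorem fv_update (i : Fin n) (x : Fin n → Fin 2 → k) (u : Fin 2 → k) :
    fv c (Function.update x i u) = qf (cf c i x) u := by
  rw [fv_eq c i, cf_update, Function.update_self]

theorem fv_of {i : Fin n} {x y : Fin n → Fin 2 → k} (h : ∀ j, j ≠ i → y j = x j) :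
    fv c y = qf (cf c i x) (y i) := by
  rw [fv_eq c i, cf_congr c h]

theorem Mv.symm {i : Fin n} {p q : k × (Fin n → Fin 2 → k)} (h : Mv c i p q) : Mv c i q p := by
  refine ⟨fun j hj => (h.1 j hj).symm, ?_⟩
  rw [bl_pf, pf_symm, cf_congr c h.1, ← bl_pf, mul_right_comm]
  exact h.2

theorem Wd.append {w w' : List (Fin n)} {p q r : k × (Fin n → Fin 2 → k)} (h : Wd c w p q)
    (h' : Wd c w' q r) : Wd c (w ++ w') p r := by
  induction w generalizing p with
  | nil =>
    change p = q at h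
    rw [h]
    exact h'
  | cons b w ih =>
    obtain ⟨s, hs, hst, hw⟩ := h
    exact ⟨s, hs, hst, ih hw⟩

theorem Wd.eqn {w : List (Fin n)} {p q : k × (Fin n → Fin 2 → k)} (h : Wd c w p q)
    (hp : p.1 ^ 2 = fv c p.2) : q.1 ^ 2 = fv c q.2 := by
  induction w generalizing p with
  | nil =>
    change p = q at h
    rw [← h]
    exact hp
  | cons b w ih =>
    obtain ⟨s, hs, hst, hw⟩ := h
    exact ih hw hs

theorem Wd.rev {w : List (Fin n)} {p q : k × (Fin n → Fin 2 → k)} (h : Wd c w p q)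
    (hp : p.1 ^ 2 = fv c p.2) : Wd c w.reverse q p := by
  induction w generalizing p with
  | nil =>
    change p = q at h
    change q = p
    exact h.symm
  | cons b w ih =>
    obtain ⟨s, hs, hst, hw⟩ := h
    rw [List.reverse_cons]
    exact (ih hw hs).append c ⟨p, hp, hst.symm, rfl⟩

/-- scaling -/
def sc (b : Fin n → k) (p : k × (Fin n → Fin 2 → k)) : k × (Fin n → Fin 2 → k) :=
  ((∏ i, b i) * p.1, fun i => b i • p.2 i)

theorem fv_sc (b : Fin n → k) (x : Fin n → Fin 2 → k) :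
    fv c (fun i => b i • x i) = (∏ i, b i) ^ 2 * fv c x := by
  unfold fv
  rw [Finset.mul_sum]
  refine Finset.sum_congr rfl fun α _ => ?_
  simp only [mo_smul]
  rw [Finset.prod_mul_distrib, Finset.prod_pow]
  ring

theorem cf_sc (i : Fin n) (b : Fin n → k) (x : Fin n → Fin 2 → k) (e : Fin 3) :
    cf c i (fun j => b j • x j) e = (∏ j ∈ Finset.univ.erase i, b j) ^ 2 * cf c i x e := by
  unfold cf
  rw [Finset.mul_sum]
  refine Finset.sum_congr rfl fun α _ => ?_
  split_ifs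
  · simp only [mo_smul]
    rw [Finset.prod_mul_distrib, Finset.prod_pow]
    ring
  · rw [mul_zero]

theorem Mv.sc {i : Fin n} {p q : k × (Fin n → Fin 2 → k)} (h : Mv c i p q) {b : Fin n → k}
    (hb : ∀ j, b j ≠ 0) {d : k} (hd : d ≠ 0) :
    Mv c i (sc b p) (DC.sc (Function.update b i d) q) := by
  refine ⟨fun j hj => ?_, ?_⟩
  · change (Function.update b i d) j • q.2 j = b j • p.2 j
    rw [Function.update_of_ne hj, h.1 j hj]
  · have e1 : ∏ j, b j = b i * ∏ j ∈ Finset.univ.erase i, b j :=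
      (Finset.mul_prod_erase Finset.univ b (Finset.mem_univ i)).symm
    have e2 : ∏ j, (Function.update b i d) j = d * ∏ j ∈ Finset.univ.erase i, b j := by
      rw [← Finset.mul_prod_erase Finset.univ _ (Finset.mem_univ i), Function.update_self]
      congr 1
      exact Finset.prod_congr rfl fun j hj =>
        Function.update_of_ne (Finset.ne_of_mem_erase hj) _ _
    have e3 : 2 * (DC.sc b p).1 * (DC.sc (Function.update b i d) q).1 -
        bl c i (DC.sc b p).2 ((DC.sc b p).2 i) ((DC.sc (Function.update b i d) q).2 i) =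
        b i * d * (∏ j ∈ Finset.univ.erase i, b j) ^ 2 *
          (2 * p.1 * q.1 - bl c i p.2 (p.2 i) (q.2 i)) := by
      simp only [DC.sc, Function.update_self, bl_pf, pf_smul_left, pf_smul_right]
      rw [e1, e2]
      have e4 : ∀ u v, pf (cf c i fun j => b j • p.2 j) u v =
          (∏ j ∈ Finset.univ.erase i, b j) ^ 2 * pf (cf c i p.2) u v := by
        intro u v
        simp only [pf, cf_sc]
        ring
      rw [e4]
      ring
    rw [e3]
    exact mul_ne_zero (mul_ne_zero (mul_ne_zero (hb i) hd)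
      (pow_ne_zero _ (Finset.prod_ne_zero_iff.2 fun j _ => hb j))) h.2

theorem Wd.scale {w : List (Fin n)} {p q : k × (Fin n → Fin 2 → k)} (h : Wd c w p q)
    (b b' : Fin n → k) (hb : ∀ j, b j ≠ 0) (hb' : ∀ j, b' j ≠ 0)
    (hw : ∀ j, j ∈ w ∨ b j = b' j) : Wd c w (sc b p) (sc b' q) := by
  induction w generalizing p b with
  | nil =>
    change p = q at h
    have e : b = b' := funext fun j => (hw j).resolve_left (by simp)
    rw [h, e]
    rfl
  | cons i w ih =>
    obtain ⟨s, hs, hst, hw'⟩ := h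
    have hb1 : ∀ j, Function.update b i (b' i) j ≠ 0 := by
      intro j
      by_cases hj : j = i
      · rw [hj, Function.update_self]; exact hb' i
      · rw [Function.update_of_ne hj]; exact hb j
    refine ⟨DC.sc (Function.update b i (b' i)) s, ?_, hst.sc c hb (hb' i), ?_⟩
    · change ((∏ j, Function.update b i (b' i) j) * s.1) ^ 2 = fv c (fun j =>
        Function.update b i (b' i) j • s.2 j)
      rw [fv_sc, mul_pow, hs]
    · refine ih hw' _ hb1 fun j => ?_
      by_cases hj : j = i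
      · right
        rw [hj, Function.update_self]
      · rw [Function.update_of_ne hj]
        rcases hw j with h1 | h1
        · left
          exact (List.mem_cons.1 h1).resolve_left hj
        · exact Or.inr h1

/-- the sign change -/
theorem flip_mv {i : Fin n} {p : k × (Fin n → Fin 2 → k)} (h2 : (2 : k) ≠ 0)
    (hp : p.1 ^ 2 = fv c p.2) (h0 : p.1 ≠ 0) : Mv c i p (-p.1, p.2) := by
  refine ⟨fun _ _ => rfl, ?_⟩
  rw [bl_pf, pf_self, ← fv_eq, ← hp]
  have : 2 * p.1 * -p.1 - 2 * p.1 ^ 2 = -(2 * 2 * p.1 ^ 2) := by ring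
  rw [this]
  exact neg_ne_zero.2 (mul_ne_zero (mul_ne_zero h2 h2) (pow_ne_zero _ h0))

/-- a move to a point outside of the branch locus, with one of the two signs -/
theorem exists_mv {i : Fin n} {p : k × (Fin n → Fin 2 → k)} (h2 : (2 : k) ≠ 0) (h0 : p.1 ≠ 0)
    (u : Fin 2 → k) {w : k} (hw : w ≠ 0) (hwu : w ^ 2 = qf (cf c i p.2) u) :
    ∃ w', w' ≠ 0 ∧ w' ^ 2 = fv c (Function.update p.2 i u) ∧
      Mv c i p (w', Function.update p.2 i u) := by
  by_cases h : 2 * p.1 * w - bl c i p.2 (p.2 i) u = 0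
  · refine ⟨-w, neg_ne_zero.2 hw, by rw [fv_update, neg_sq, hwu], fun j hj =>
      Function.update_of_ne hj _ _, ?_⟩
    simp only [Function.update_self]
    intro h'
    have h3 : 2 * 2 * p.1 * w = 0 := by linear_combination h - h'
    exact (mul_ne_zero (mul_ne_zero (mul_ne_zero h2 h2) h0) hw) h3
  · refine ⟨w, hw, by rw [fv_update, hwu], fun j hj => Function.update_of_ne hj _ _, ?_⟩
    simp only [Function.update_self]
    exact h

end alg

/-! ### reductions -/

section red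

variable {L k : Type} [NontriviallyNormedField L] [IsUltrametricDist L] [Field k] {π : L → k}

theorem sum_le {β : Type} (s : Finset β) (f : β → L) (h : ∀ i ∈ s, ‖f i‖ ≤ 1) :
    ‖∑ i ∈ s, f i‖ ≤ 1 :=
  IsUltrametricDist.norm_sum_le_of_forall_le_of_nonneg zero_le_one h

theorem prod_le {β : Type} (s : Finset β) (f : β → L) (h : ∀ i ∈ s, ‖f i‖ ≤ 1) :
    ‖∏ i ∈ s, f i‖ ≤ 1 := by
  rw [norm_prod]
  exact Finset.prod_le_one (fun i _ => norm_nonneg _) h

theorem red_sum (h : DW.Res π) {β : Type} (s : Finset β) (f : β → L) (hf : ∀ i ∈ s, ‖f i‖ ≤ 1) :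
    π (∑ i ∈ s, f i) = ∑ i ∈ s, π (f i) := by
  classical
  induction s using Finset.induction_on with
  | empty => simp [h.zero]
  | insert a s ha ih =>
    rw [Finset.sum_insert ha, Finset.sum_insert ha, h.add _ _ (hf a (Finset.mem_insert_self a s))
      (sum_le s f fun i hi => hf i (Finset.mem_insert_of_mem hi)),
      ih fun i hi => hf i (Finset.mem_insert_of_mem hi)]

theorem red_prod (h : DW.Res π) {β : Type} (s : Finset β) (f : β → L) (hf : ∀ i ∈ s, ‖f i‖ ≤ 1) :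
    π (∏ i ∈ s, f i) = ∏ i ∈ s, π (f i) := by
  classical
  induction s using Finset.induction_on with
  | empty => simp [h.one]
  | insert a s ha ih =>
    rw [Finset.prod_insert ha, Finset.prod_insert ha, h.mul _ _
      (hf a (Finset.mem_insert_self a s))
      (prod_le s f fun i hi => hf i (Finset.mem_insert_of_mem hi)),
      ih fun i hi => hf i (Finset.mem_insert_of_mem hi)]

theorem mo_le (e : Fin 3) {u : Fin 2 → L} (hu : ∀ j, ‖u j‖ ≤ 1) : ‖mo e u‖ ≤ 1 := by
  fin_cases e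
  · change ‖u 0 ^ 2‖ ≤ 1
    exact DW.sq_le1 (hu 0)
  · change ‖u 0 * u 1‖ ≤ 1
    exact DW.mul_le1 (hu 0) (hu 1)
  · change ‖u 1 ^ 2‖ ≤ 1
    exact DW.sq_le1 (hu 1)

theorem mo_red (h : DW.Res π) (e : Fin 3) {u : Fin 2 → L} (hu : ∀ j, ‖u j‖ ≤ 1) :
    π (mo e u) = mo e (fun j => π (u j)) := by
  fin_cases e
  · change π (u 0 ^ 2) = π (u 0) ^ 2
    exact h.sq (hu 0)
  · change π (u 0 * u 1) = π (u 0) * π (u 1)
    exact h.mul _ _ (hu 0) (hu 1)
  · change π (u 1 ^ 2) = π (u 1) ^ 2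
    exact h.sq (hu 1)

variable {n : ℕ} {c : (Fin n → Fin 3) → L}

theorem fv_le (hc : ∀ α, ‖c α‖ ≤ 1) {x : Fin n → Fin 2 → L} (hx : ∀ i j, ‖x i j‖ ≤ 1) :
    ‖fv c x‖ ≤ 1 :=
  sum_le _ _ fun α _ => DW.mul_le1 (hc α) (prod_le _ _ fun i _ => mo_le _ (hx i))

theorem cf_le (hc : ∀ α, ‖c α‖ ≤ 1) {x : Fin n → Fin 2 → L} (hx : ∀ i j, ‖x i j‖ ≤ 1)
    (i : Fin n) (e : Fin 3) : ‖cf c i x e‖ ≤ 1 := by
  refine sum_le _ _ fun α _ => ?_
  split_ifs
  · exact DW.mul_le1 (hc α) (prod_le _ _ fun i _ => mo_le _ (hx i))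
  · rw [norm_zero]; exact zero_le_one

theorem fv_red (h : DW.Res π) (hc : ∀ α, ‖c α‖ ≤ 1) {x : Fin n → Fin 2 → L}
    (hx : ∀ i j, ‖x i j‖ ≤ 1) :
    π (fv c x) = fv (fun α => π (c α)) (fun i j => π (x i j)) := by
  unfold fv
  rw [red_sum h _ _ fun α _ => DW.mul_le1 (hc α) (prod_le _ _ fun i _ => mo_le _ (hx i))]
  refine Finset.sum_congr rfl fun α _ => ?_
  rw [h.mul _ _ (hc α) (prod_le _ _ fun i _ => mo_le _ (hx i)),
    red_prod h _ _ fun i _ => mo_le _ (hx i)]
  congr 1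
  exact Finset.prod_congr rfl fun i _ => mo_red h _ (hx i)

theorem cf_red (h : DW.Res π) (hc : ∀ α, ‖c α‖ ≤ 1) {x : Fin n → Fin 2 → L}
    (hx : ∀ i j, ‖x i j‖ ≤ 1) (i : Fin n) (e : Fin 3) :
    π (cf c i x e) = cf (fun α => π (c α)) i (fun i j => π (x i j)) e := by
  unfold cf
  rw [red_sum h _ _ fun α _ => by
    split_ifs
    · exact DW.mul_le1 (hc α) (prod_le _ _ fun i _ => mo_le _ (hx i))
    · rw [norm_zero]; exact zero_le_one]
  refine Finset.sum_congr rfl fun α _ => ?_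
  split_ifs
  · rw [h.mul _ _ (hc α) (prod_le _ _ fun i _ => mo_le _ (hx i)),
      red_prod h _ _ fun i _ => mo_le _ (hx i)]
    congr 1
    exact Finset.prod_congr rfl fun i _ => mo_red h _ (hx i)
  · exact h.zero

theorem two_le (h : DW.Res π) (h2 : (2 : k) ≠ 0) : ‖(2 : L)‖ ≤ 1 ∧ π 2 = 2 := by
  have h1 : ‖(1 : L)‖ ≤ 1 := by simp
  have e : (2 : L) = 1 + 1 := by norm_num
  refine ⟨(h.norm_two h2).le, ?_⟩
  rw [e, h.add _ _ h1 h1, h.one]; norm_num

theorem pf_red (h : DW.Res π) (h2 : (2 : k) ≠ 0) {f : Fin 3 → L} (hf : ∀ e, ‖f e‖ ≤ 1)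
    {u v : Fin 2 → L} (hu : ∀ j, ‖u j‖ ≤ 1) (hv : ∀ j, ‖v j‖ ≤ 1) :
    ‖pf f u v‖ ≤ 1 ∧ π (pf f u v) = pf (fun e => π (f e)) (fun j => π (u j)) (fun j => π (v j)) := by
  obtain ⟨i2, r2⟩ := two_le h h2
  have a1 : ‖2 * f 0 * u 0 * v 0‖ ≤ 1 := DW.mul_le1 (DW.mul_le1 (DW.mul_le1 i2 (hf 0)) (hu 0)) (hv 0)
  have a2 : ‖u 0 * v 1 + u 1 * v 0‖ ≤ 1 := (IsUltrametricDist.norm_add_le_max _ _).trans
    (max_le (DW.mul_le1 (hu 0) (hv 1)) (DW.mul_le1 (hu 1) (hv 0)))
  have a3 : ‖f 1 * (u 0 * v 1 + u 1 * v 0)‖ ≤ 1 := DW.mul_le1 (hf 1) a2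
  have a4 : ‖2 * f 2 * u 1 * v 1‖ ≤ 1 := DW.mul_le1 (DW.mul_le1 (DW.mul_le1 i2 (hf 2)) (hu 1)) (hv 1)
  have a5 : ‖2 * f 0 * u 0 * v 0 + f 1 * (u 0 * v 1 + u 1 * v 0)‖ ≤ 1 :=
    (IsUltrametricDist.norm_add_le_max _ _).trans (max_le a1 a3)
  refine ⟨(IsUltrametricDist.norm_add_le_max _ _).trans (max_le a5 a4), ?_⟩
  unfold pf
  rw [h.add _ _ a5 a4, h.add _ _ a1 a3, h.mul _ _ (hf 1) a2,
    h.add _ _ (DW.mul_le1 (hu 0) (hv 1)) (DW.mul_le1 (hu 1) (hv 0)),
    h.mul _ _ (DW.mul_le1 (DW.mul_le1 i2 (hf 0)) (hu 0)) (hv 0),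
    h.mul _ _ (DW.mul_le1 i2 (hf 0)) (hu 0), h.mul _ _ i2 (hf 0),
    h.mul _ _ (DW.mul_le1 (DW.mul_le1 i2 (hf 2)) (hu 1)) (hv 1),
    h.mul _ _ (DW.mul_le1 i2 (hf 2)) (hu 1), h.mul _ _ i2 (hf 2),
    h.mul _ _ (hu 0) (hv 1), h.mul _ _ (hu 1) (hv 0), r2]

theorem bl_red (h : DW.Res π) (h2 : (2 : k) ≠ 0) (hc : ∀ α, ‖c α‖ ≤ 1) {x : Fin n → Fin 2 → L}
    (hx : ∀ i j, ‖x i j‖ ≤ 1) (i : Fin n) {u v : Fin 2 → L} (hu : ∀ j, ‖u j‖ ≤ 1)
    (hv : ∀ j, ‖v j‖ ≤ 1) : ‖bl c i x u v‖ ≤ 1 ∧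
    π (bl c i x u v) = bl (fun α => π (c α)) i (fun i j => π (x i j)) (fun j => π (u j))
      (fun j => π (v j)) := by
  obtain ⟨a, b⟩ := pf_red h h2 (cf_le hc hx i) hu hv
  refine ⟨a, b.trans ?_⟩
  rw [bl_pf]
  congr 1
  funext e
  exact cf_red h hc hx i e

end red

section map

variable {K L : Type} [Field K] [Field L] (σ : K →+* L) {n : ℕ} (c : (Fin n → Fin 3) → K)

theorem mo_map (e : Fin 3) (u : Fin 2 → K) : σ (mo e u) = mo e (fun j => σ (u j)) := by
  fin_cases e <;> simp [mo]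

theorem fv_map (x : Fin n → Fin 2 → K) :
    σ (fv c x) = fv (fun α => σ (c α)) (fun i j => σ (x i j)) := by
  simp only [fv, map_sum, map_mul, map_prod, mo_map]

theorem cf_map (i : Fin n) (x : Fin n → Fin 2 → K) (e : Fin 3) :
    σ (cf c i x e) = cf (fun α => σ (c α)) i (fun i j => σ (x i j)) e := by
  simp only [cf, map_sum, apply_ite σ, map_mul, map_prod, mo_map, map_zero]

theorem bl_map (i : Fin n) (x : Fin n → Fin 2 → K) (u v : Fin 2 → K) :
    σ (bl c i x u v) = bl (fun α => σ (c α)) i (fun i j => σ (x i j)) (fun j => σ (u j))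
      (fun j => σ (v j)) := by
  simp only [bl, map_add, map_mul, map_ofNat, cf_map]

theorem ds_map (i : Fin n) (x : Fin n → Fin 2 → K) :
    σ (ds c i x) = ds (fun α => σ (c α)) i (fun i j => σ (x i j)) := by
  simp only [ds, map_sub, map_mul, map_pow, map_ofNat, cf_map]

end map

section cont

variable {L : Type} [NontriviallyNormedField L] {n : ℕ} (c : (Fin n → Fin 3) → L)

theorem mo_cont (e : Fin 3) : Continuous fun u : Fin 2 → L => mo e u := by
  fin_cases e
  · change Continuous fun u : Fin 2 → L => u 0 ^ 2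
    fun_prop
  · change Continuous fun u : Fin 2 → L => u 0 * u 1
    fun_prop
  · change Continuous fun u : Fin 2 → L => u 1 ^ 2
    fun_prop

theorem fv_cont : Continuous fun x : Fin n → Fin 2 → L => fv c x :=
  continuous_finset_sum _ fun α _ => continuous_const.mul
    (continuous_finset_prod _ fun i _ => (mo_cont (α i)).comp (continuous_apply i))

theorem cf_cont (i : Fin n) (e : Fin 3) : Continuous fun x : Fin n → Fin 2 → L => cf c i x e := by
  refine continuous_finset_sum _ fun α _ => ?_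
  split_ifs
  · exact continuous_const.mul
      (continuous_finset_prod _ fun i _ => (mo_cont (α i)).comp (continuous_apply i))
  · exact continuous_const

end cont

end Pool.Agent.T6.H77.DC
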