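import Pool.Agent.T6.H77.DW.Defs

/-!
# Double covers of products of projective lines: definitions (helper77)
-/

set_option autoImplicit false

namespace Pool.Agent.T6.H77.DC

/-- the monomials `u₀²`, `u₀ u₁`, `u₁²` -/
def mo {k : Type} [Field k] (e : Fin 3) (u : Fin 2 → k) : k :=
  ![u 0 ^ 2, u 0 * u 1, u 1 ^ 2] e

/-- the binary quadratic form with coefficients `f` -/
def qf {k : Type} [Field k] (f : Fin 3 → k) (u : Fin 2 → k) : k := ∑ e, f e * mo e u

/-- the form `F(x_1, ..., x_n)` of degree two in each of the `n` vectors `x_i` of length two -/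
def fv {k : Type} [Field k] {n : ℕ} (c : (Fin n → Fin 3) → k) (x : Fin n → Fin 2 → k) : k :=
  ∑ α, c α * ∏ i, mo (α i) (x i)

/-- the coefficients of `F(x_1, ..., u, ..., x_n)`, `u` at the place `i` -/
def cf {k : Type} [Field k] {n : ℕ} (c : (Fin n → Fin 3) → k) (i : Fin n)
    (x : Fin n → Fin 2 → k) (e : Fin 3) : k :=
  ∑ α, if α i = e then c α * ∏ j ∈ Finset.univ.erase i, mo (α j) (x j) else 0

/-- the polar form `B(u, v)` of `F(x_1, ..., u, ..., x_n)`; `B(u, u) = 2 F(x_1, ..., u, ..., x_n)` -/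
def bl {k : Type} [Field k] {n : ℕ} (c : (Fin n → Fin 3) → k) (i : Fin n)
    (x : Fin n → Fin 2 → k) (u v : Fin 2 → k) : k :=
  2 * cf c i x 0 * u 0 * v 0 + cf c i x 1 * (u 0 * v 1 + u 1 * v 0) + 2 * cf c i x 2 * u 1 * v 1

/-- the discriminant of `F(x_1, ..., u, ..., x_n)` -/
def ds {k : Type} [Field k] {n : ℕ} (c : (Fin n → Fin 3) → k) (i : Fin n)
    (x : Fin n → Fin 2 → k) : k := cf c i x 1 ^ 2 - 4 * cf c i x 0 * cf c i x 2

/-- the points of `w² = F(x_1, ..., x_n)` -/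
def On {k : Type} [Field k] {n : ℕ} (c : (Fin n → Fin 3) → k) (p : k × (Fin n → Fin 2 → k)) :
    Prop := (∀ i, p.2 i ≠ 0) ∧ p.1 ^ 2 = fv c p.2

/-- a move along the conic `w² = F(x_1, ..., u, ..., x_n)` -/
def Mv {k : Type} [Field k] {n : ℕ} (c : (Fin n → Fin 3) → k) (i : Fin n)
    (p q : k × (Fin n → Fin 2 → k)) : Prop :=
  (∀ j, j ≠ i → q.2 j = p.2 j) ∧ 2 * p.1 * q.1 - bl c i p.2 (p.2 i) (q.2 i) ≠ 0

/-- a chain of moves of the directions given by a word -/
def Wd {k : Type} [Field k] {n : ℕ} (c : (Fin n → Fin 3) → k) :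
    List (Fin n) → k × (Fin n → Fin 2 → k) → k × (Fin n → Fin 2 → k) → Prop
  | [], p, q => p = q
  | i :: w, p, q => ∃ r, r.1 ^ 2 = fv c r.2 ∧ Mv c i p r ∧ Wd c w r q

/-- the points `(1, t_i)` -/
def af {k : Type} [Field k] {n : ℕ} (t : Fin n → k) : Fin n → Fin 2 → k := fun i => ![1, t i]

/-- the first `j` components from `y`, the others from `x` -/
def hy {β : Type} {n : ℕ} (j : ℕ) (y x : Fin n → β) : Fin n → β := fun i => if i.val < j then y i else x i

/-- Good forms over a finite field `k`: `2 ≠ 0`; the double cover `w² = F(x)` is smooth at its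
`k`-points; for some points `r`, `s`, `t` the forms `F(t_1, ..., t_j, ·, s_(j+2), ..., s_n)` and
`F(t_1, ..., t_j, ·, r_(j+2), ..., r_n)` are not proportional for all `j < n - 1`, and
`F(t_1, ..., t_(n-1), ·)` has discriminant not zero. -/
structure Gd {k : Type} [Field k] {n : ℕ} (c : (Fin n → Fin 3) → k) : Prop where
  two : (2 : k) ≠ 0
  sm : ∀ x : Fin n → Fin 2 → k, (∀ i, x i ≠ 0) → fv c x = 0 → ∃ i u, bl c i x (x i) u ≠ 0
  gp : ∃ r s t : Fin n → k, (∀ j : Fin n, j.val + 1 < n → ∃ e e',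
      cf c j (hy j.val (af t) (af s)) e * cf c j (hy j.val (af t) (af r)) e' ≠
      cf c j (hy j.val (af t) (af s)) e' * cf c j (hy j.val (af t) (af r)) e) ∧
    ∀ j : Fin n, j.val + 1 = n → ds c j (af t) ≠ 0

end Pool.Agent.T6.H77.DC
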