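import Pool.Agent.T6.H77.DC.BAS
import Pool.Agent.T6.H77.DW.LOC

/-!
# Connectivity over local fields with large residue fields (helper77)
-/

set_option autoImplicit false

namespace Pool.Agent.T6.H77.DC

/-- LOC: connectivity over local fields with large residue fields -/
def StmLOC : Prop := ∀ n : ℕ, 0 < n → ∃ (q₀ : ℕ) (w : List (Fin n)), ∀ (L k : Type)
  [NontriviallyNormedField L] [IsUltrametricDist L] [CompleteSpace L] [Field k] [Fintype k]
  (π : L → k), DW.Res π → q₀ ≤ Fintype.card k → ∀ c : (Fin n → Fin 3) → L, (∀ α, ‖c α‖ ≤ 1) →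
  Gd (fun α => π (c α)) → ∀ p q : L × (Fin n → Fin 2 → L), On c p → p.1 ≠ 0 → On c q →
  q.1 ≠ 0 → Wd c w p q

namespace LOC

variable {L k : Type} [NontriviallyNormedField L] [IsUltrametricDist L] [CompleteSpace L]
  [Field k] {π : L → k} {n : ℕ} {c : (Fin n → Fin 3) → L}

/-- integral points with reduction `p` -/
structure Rd (π : L → k) (P : L × (Fin n → Fin 2 → L)) (p : k × (Fin n → Fin 2 → k)) :
    Prop where
  h1 : ‖P.1‖ ≤ 1
  h2 : ∀ i j, ‖P.2 i j‖ ≤ 1
  e1 : π P.1 = p.1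
  e2 : ∀ i j, π (P.2 i j) = p.2 i j

omit [IsUltrametricDist L] [CompleteSpace L] in
theorem norm_one_of (h : DW.Res π) {x : L} (hx : ‖x‖ ≤ 1) (h0 : π x ≠ 0) : ‖x‖ = 1 :=
  le_antisymm hx (not_lt.1 fun hl => h0 ((h.ker x hx).2 hl))

omit [CompleteSpace L] in
theorem liftM (h : DW.Res π) (h2 : (2 : k) ≠ 0) (hc : ∀ α, ‖c α‖ ≤ 1)
    {P : L × (Fin n → Fin 2 → L)} {p r : k × (Fin n → Fin 2 → k)} (hP : Rd π P p)
    (hF : P.1 ^ 2 = fv c P.2) {i : Fin n} (hr : r.1 ^ 2 = fv (fun α => π (c α)) r.2)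
    (hm : Mv (fun α => π (c α)) i p r) :
    ∃ R : L × (Fin n → Fin 2 → L), Rd π R r ∧ R.1 ^ 2 = fv c R.2 ∧ Mv c i P R := by
  obtain ⟨Ω, iΩ, rΩ⟩ := h.surj r.1
  choose U iU rU using fun j => h.surj (r.2 i j)
  have ep2 : (fun i j => π (P.2 i j)) = p.2 := funext fun i => funext fun j => hP.e2 i j
  have eU : (fun j => π (U j)) = r.2 i := funext rU
  set f : Fin 3 → L := cf c i P.2 with hf
  have hfl : ∀ e, ‖f e‖ ≤ 1 := fun e => cf_le hc hP.h2 i e
  obtain ⟨i2, r2⟩ := two_le h h2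
  obtain ⟨ibl, rbl⟩ := bl_red h h2 hc hP.h2 i (hP.h2 i) iU
  have i2W : ‖2 * P.1 * Ω‖ ≤ 1 := DW.mul_le1 (DW.mul_le1 i2 hP.h1) iΩ
  set b : L := 2 * P.1 * Ω - bl c i P.2 (P.2 i) U with hb
  have ib : ‖b‖ ≤ 1 := DW.sub_le1 i2W ibl
  have rb : π b ≠ 0 := by
    rw [hb, h.sub i2W ibl, h.mul _ _ (DW.mul_le1 i2 hP.h1) iΩ, h.mul _ _ i2 hP.h1, r2, rΩ, hP.e1,
      rbl, eU, ep2]
    have : (fun j => π (P.2 i j)) = p.2 i := funext fun j => hP.e2 i j
    rw [this]
    exact hm.2
  have nb : ‖b‖ = 1 := norm_one_of h ib rb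
  have b0 : b ≠ 0 := by
    intro h0
    rw [h0, norm_zero] at nb
    exact zero_ne_one nb
  -- the value of the ternary form at the lift
  have hfvU : qf f U = fv c (Function.update P.2 i U) := (fv_update c i P.2 U).symm
  have iupd : ∀ a j, ‖(Function.update P.2 i U) a j‖ ≤ 1 := by
    intro a j
    by_cases ha : a = i
    · rw [ha, Function.update_self]; exact iU j
    · rw [Function.update_of_ne ha]; exact hP.h2 a j
  have iq : ‖qf f U‖ ≤ 1 := by rw [hfvU]; exact fv_le hc iupd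
  have rq : π (qf f U) = r.1 ^ 2 := by
    rw [hfvU, fv_red h hc iupd, hr]
    congr 1
    funext a j
    by_cases ha : a = i
    · rw [ha, Function.update_self]; exact rU j
    · rw [Function.update_of_ne ha, hP.e2, hm.1 a ha]
  set T : L := Ω ^ 2 - qf f U with hT
  have iT : ‖T‖ ≤ 1 := DW.sub_le1 (DW.sq_le1 iΩ) iq
  have rT : π T = 0 := by
    rw [hT, h.sub (DW.sq_le1 iΩ) iq, h.sq iΩ, rΩ, rq, sub_self]
  have nT : ‖T‖ < 1 := (h.ker _ iT).1 rT
  set lam : L := T / b with hlam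
  have nl : ‖lam‖ < 1 := by rw [hlam, norm_div, nb, div_one]; exact nT
  have hlb : lam * b = T := by rw [hlam, div_mul_cancel₀ _ b0]
  have small : ∀ z : L, ‖z‖ ≤ 1 → ‖lam * z‖ < 1 := by
    intro z hz
    rw [norm_mul]
    calc ‖lam‖ * ‖z‖ ≤ ‖lam‖ * 1 := mul_le_mul_of_nonneg_left hz (norm_nonneg _)
      _ < 1 := by rw [mul_one]; exact nl
  have ired : ∀ a z : L, ‖a‖ ≤ 1 → ‖z‖ ≤ 1 → ‖a - lam * z‖ ≤ 1 ∧ π (a - lam * z) = π a := by
    intro a z ha hz
    have hs := small z hz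
    refine ⟨DW.sub_le1 ha hs.le, ?_⟩
    rw [h.sub ha hs.le, (h.ker _ hs.le).2 hs, sub_zero]
  have hqP : qf f (P.2 i) = P.1 ^ 2 := by rw [hF, fv_eq c i, hf]
  have key : (1 : L) • U + (-lam) • P.2 i = fun j => U j - lam * P.2 i j := by
    funext j
    simp only [Pi.add_apply, Pi.smul_apply, smul_eq_mul]; ring
  have hqn : qf f (fun j => U j - lam * P.2 i j) =
      qf f U - lam * pf f U (P.2 i) + lam ^ 2 * P.1 ^ 2 := by
    rw [← key, qf_comb, hqP]; ring
  have hpn : pf f (P.2 i) (fun j => U j - lam * P.2 i j) =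
      pf f (P.2 i) U - lam * (2 * P.1 ^ 2) := by
    rw [← key, pf_comb, pf_self, hqP]; ring
  refine ⟨(Ω - lam * P.1, Function.update P.2 i (fun j => U j - lam * P.2 i j)), ⟨?_, ?_, ?_, ?_⟩,
    ?_, ?_, ?_⟩
  · exact (ired _ _ iΩ hP.h1).1
  · intro a j
    by_cases ha : a = i
    · simp only [ha, Function.update_self]
      exact (ired _ _ (iU j) (hP.h2 i j)).1
    · simp only [Function.update_of_ne ha]
      exact hP.h2 a j
  · exact (ired _ _ iΩ hP.h1).2.trans rΩ
  · intro a j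
    by_cases ha : a = i
    · simp only [ha, Function.update_self]
      exact (ired _ _ (iU j) (hP.h2 i j)).2.trans (rU j)
    · simp only [Function.update_of_ne ha]
      rw [hP.e2, hm.1 a ha]
  · change (Ω - lam * P.1) ^ 2 = fv c (Function.update P.2 i (fun j => U j - lam * P.2 i j))
    rw [fv_update, ← hf, hqn, pf_symm]
    have e1 : b = 2 * P.1 * Ω - pf f (P.2 i) U := rfl
    have e2 : T = Ω ^ 2 - qf f U := rfl
    linear_combination lam * e1 - e2 - hlb
  · intro j hj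
    exact Function.update_of_ne hj _ _
  · simp only [Function.update_self]
    have e1 : b = 2 * P.1 * Ω - pf f (P.2 i) U := rfl
    have e3 : 2 * P.1 * (Ω - lam * P.1) - bl c i P.2 (P.2 i) (fun j => U j - lam * P.2 i j) = b := by
      rw [bl_pf, ← hf, hpn, e1]; ring
    rw [e3]
    exact b0

omit [CompleteSpace L] in
theorem liftW (h : DW.Res π) (h2 : (2 : k) ≠ 0) (hc : ∀ α, ‖c α‖ ≤ 1) {w : List (Fin n)}
    {P : L × (Fin n → Fin 2 → L)} {p r : k × (Fin n → Fin 2 → k)} (hP : Rd π P p)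
    (hF : P.1 ^ 2 = fv c P.2) (hw : Wd (fun α => π (c α)) w p r) :
    ∃ R : L × (Fin n → Fin 2 → L), Rd π R r ∧ R.1 ^ 2 = fv c R.2 ∧ Wd c w P R := by
  induction w generalizing P p with
  | nil =>
    change p = r at hw
    exact ⟨P, hw ▸ hP, hF, rfl⟩
  | cons t w ih =>
    obtain ⟨s, hs1, hst, hw'⟩ := hw
    obtain ⟨S, h3, h4, h5⟩ := liftM h h2 hc hP hF hs1 hst
    obtain ⟨R, h6, h7, h8⟩ := ih h3 h4 hw'
    exact ⟨R, h6, h7, S, h4, h5, h8⟩

omit [CompleteSpace L] in
theorem red_neg (h : DW.Res π) {x : L} (hx : ‖x‖ ≤ 1) : π (-x) = -π x := by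
  have h0 : ‖(0 : L)‖ ≤ 1 := by rw [norm_zero]; exact zero_le_one
  have := h.sub h0 hx
  rw [zero_sub, h.zero, zero_sub] at this
  exact this

omit [CompleteSpace L] in
/-- the first phase -/
theorem start (h : DW.Res π) (hc : ∀ α, ‖c α‖ ≤ 1) (hG : Gd (fun α => π (c α)))
    (P : L × (Fin n → Fin 2 → L)) (i1 : ‖P.1‖ ≤ 1) (i2 : ∀ i j, ‖P.2 i j‖ ≤ 1)
    (hp : ∀ i, ∃ j, P.2 i j = 1) (h0 : P.1 ≠ 0) (hF : P.1 ^ 2 = fv c P.2) :
    ∃ R : L × (Fin n → Fin 2 → L), ‖R.1‖ ≤ 1 ∧ (∀ i j, ‖R.2 i j‖ ≤ 1) ∧ π R.1 ≠ 0 ∧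
      R.1 ^ 2 = fv c R.2 ∧ Wd c (List.finRange n) P R := by
  have h2 := hG.two
  have h2L : (2 : L) ≠ 0 := by
    have := h.norm_two h2
    intro h0
    rw [h0, norm_zero] at this
    exact zero_ne_one this
  have key : ∀ j : ℕ, j ≤ n → ∃ R : L × (Fin n → Fin 2 → L), ‖R.1‖ ≤ 1 ∧
      (∀ i j, ‖R.2 i j‖ ≤ 1) ∧ R.1 ≠ 0 ∧ R.1 ^ 2 = fv c R.2 ∧
      Wd c ((List.finRange n).take j) P R ∧ (π R.1 ≠ 0 ∨ (R.2 = P.2 ∧ π R.1 = 0 ∧
        ∀ i : Fin n, i.val < j → ∀ u, bl (fun α => π (c α)) i (fun a b => π (P.2 a b))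
          (fun b => π (P.2 i b)) u = 0)) := by
    intro j
    induction j with
    | zero =>
      intro _
      refine ⟨P, i1, i2, h0, hF, by simp [Wd], ?_⟩
      by_cases hπ : π P.1 = 0
      · exact Or.inr ⟨rfl, hπ, fun i hi => absurd hi (Nat.not_lt_zero _)⟩
      · exact Or.inl hπ
    | succ j ih =>
      intro hj
      obtain ⟨R, r1, r2, r3, r4, r5, r6⟩ := ih (by omega)
      have hjn : j < n := hj
      set i : Fin n := ⟨j, hjn⟩ with hi
      have htake : (List.finRange n).take (j + 1) = (List.finRange n).take j ++ [i] := by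
        rw [List.take_add_one]
        congr 1
        simp [hjn, hi]
      have flp : ∀ Q, Q = (-R.1, R.2) → Wd c ((List.finRange n).take (j + 1)) P Q := by
        rintro Q rfl
        rw [htake]
        exact r5.append c ⟨(-R.1, R.2), by rw [← r4]; exact neg_sq _,
          flip_mv c h2L r4 r3, rfl⟩
      rcases r6 with r6 | ⟨r6, r7, r8⟩
      · refine ⟨(-R.1, R.2), by rw [norm_neg]; exact r1, r2, neg_ne_zero.2 r3,
          by rw [← r4]; exact neg_sq _, flp _ rfl, Or.inl ?_⟩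
        change π (-R.1) ≠ 0
        rw [red_neg h r1]
        exact neg_ne_zero.2 r6
      · by_cases hb : ∀ u, bl (fun α => π (c α)) i (fun a b => π (P.2 a b))
          (fun b => π (P.2 i b)) u = 0
        · refine ⟨(-R.1, R.2), by rw [norm_neg]; exact r1, r2, neg_ne_zero.2 r3,
            by rw [← r4]; exact neg_sq _, flp _ rfl, Or.inr ⟨r6, ?_, ?_⟩⟩
          · change π (-R.1) = 0
            rw [red_neg h r1, r7, neg_zero]
          · intro a ha
            rcases Nat.lt_succ_iff_lt_or_eq.1 ha with ha | ha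
            · exact r8 a ha
            · have : a = i := Fin.ext ha
              rw [this]
              exact hb
        · push Not at hb
          obtain ⟨v, hv⟩ := hb
          set X : Fin n → Fin 2 → k := fun a b => π (P.2 a b) with hX
          set C : (Fin n → Fin 3) → k := fun α => π (c α) with hC
          set f : Fin 3 → k := cf C i X with hf
          set xi : Fin 2 → k := fun b => π (P.2 i b) with hxi
          have hRX : (fun a b => π (R.2 a b)) = X := by rw [r6]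
          have hq0 : qf f xi = 0 := by
            have e1 : qf f xi = fv C X := (fv_eq C i X).symm
            have e2 : fv C X = π (fv c P.2) := (fv_red h hc i2).symm
            rw [e1, e2, ← r6, ← r4, h.sq r1, r7]
            ring
          have hv' : pf f xi v ≠ 0 := hv
          set α : k := (1 - qf f v) / pf f xi v with hα
          have hαv : α * pf f xi v = 1 - qf f v := div_mul_cancel₀ _ hv'
          have hu1 : qf f (α • xi + (1 : k) • v) = 1 := by
            rw [qf_comb, hq0]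
            linear_combination hαv
          obtain ⟨S, hS1, hS2, hS3⟩ := liftM (P := R) (p := (π R.1, X))
            (r := (1, Function.update X i (α • xi + (1 : k) • v))) h h2 hc
            ⟨r1, r2, rfl, fun a b => congrFun (congrFun hRX a) b⟩ r4 (i := i)
            (by
              change (1 : k) ^ 2 = fv C (Function.update X i (α • xi + (1 : k) • v))
              rw [fv_update, ← hf, hu1, one_pow])
            ⟨fun a ha => by
              change Function.update X i (α • xi + (1 : k) • v) a = X a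
              exact Function.update_of_ne ha _ _, by
              simp only [Function.update_self]
              change 2 * π R.1 * 1 - pf f xi (α • xi + (1 : k) • v) ≠ 0
              rw [pf_comb, pf_self, hq0, r7]
              intro hz
              apply hv'
              linear_combination -hz⟩
          have hS0 : π S.1 ≠ 0 := by
            rw [hS1.e1]
            exact one_ne_zero
          refine ⟨S, hS1.h1, hS1.h2, ?_, hS2, ?_, Or.inl hS0⟩
          · intro hz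
            rw [hz, h.zero] at hS0
            exact hS0 rfl
          · rw [htake]
            exact r5.append c ⟨S, hS2, hS3, rfl⟩
  obtain ⟨R, r1, r2, r3, r4, r5, r6⟩ := key n le_rfl
  have htn : (List.finRange n).take n = List.finRange n := by
    apply List.take_of_length_le
    simp
  rw [htn] at r5
  refine ⟨R, r1, r2, ?_, r4, r5⟩
  rcases r6 with r6 | ⟨r6, r7, r8⟩
  · exact r6
  · exfalso
    obtain ⟨i, u, hu⟩ := hG.sm (fun a b => π (P.2 a b)) (fun i hi => by
      obtain ⟨j, hj⟩ := hp i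
      have := congrFun hi j
      simp only [hj, h.one] at this
      exact one_ne_zero this) (by
        rw [← fv_red h hc i2, ← r6, ← r4, h.sq r1, r7]
        ring)
    exact hu (r8 i i.isLt u)

end LOC

open LOC in
theorem loc (hFQ : StmFQ) (hLC : StmLC) : StmLOC := by
  intro n hn
  obtain ⟨q₀, hFQ⟩ := hFQ n hn
  refine ⟨q₀, List.finRange n ++ ((List.finRange n ++ List.finRange n) ++
    (((List.finRange n).flatMap fun i => [i, i]) ++ ((List.finRange n ++ List.finRange n).reverse ++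
    (List.finRange n).reverse))), ?_⟩
  intro L k _ _ _ _ _ π h hq c hc hG p q hp hp0 hq' hq0
  have h2 := hG.two
  have key : ∀ p : L × (Fin n → Fin 2 → L), On c p → p.1 ≠ 0 →
      ∃ (b : Fin n → L) (P : L × (Fin n → Fin 2 → L)), (∀ i, b i ≠ 0) ∧ p = sc b P ∧
        ‖P.1‖ ≤ 1 ∧ (∀ i j, ‖P.2 i j‖ ≤ 1) ∧ (∀ i, ∃ j, P.2 i j = 1) ∧ P.1 ≠ 0 ∧
        P.1 ^ 2 = fv c P.2 := by
    intro p hp hp0
    have hprim : ∀ i, ∃ (b : L) (x₀ : Fin 2 → L), b ≠ 0 ∧ p.2 i = b • x₀ ∧
        (∀ j, ‖x₀ j‖ ≤ 1) ∧ ∃ j, x₀ j = 1 := by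
      intro i
      obtain ⟨m, hm⟩ := Finite.exists_max fun j => ‖p.2 i j‖
      have hm0 : p.2 i m ≠ 0 := by
        intro h0
        apply hp.1 i
        funext j
        have := hm j
        rw [h0, norm_zero] at this
        exact norm_le_zero_iff.1 this
      refine ⟨p.2 i m, (p.2 i m)⁻¹ • p.2 i, hm0, ?_, fun j => ?_, m, ?_⟩
      · rw [smul_smul, mul_inv_cancel₀ hm0, one_smul]
      · rw [Pi.smul_apply, smul_eq_mul, norm_mul, norm_inv, inv_mul_eq_div]
        exact div_le_one_of_le₀ (hm j) (norm_nonneg _)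
      · rw [Pi.smul_apply, smul_eq_mul, inv_mul_cancel₀ hm0]
    choose b x hb hbx hx hx1 using hprim
    have hB : ∏ i, b i ≠ 0 := Finset.prod_ne_zero_iff.2 fun i _ => hb i
    have hF : p.1 ^ 2 = (∏ i, b i) ^ 2 * fv c x := by
      rw [hp.2, ← fv_sc]
      congr 1
      funext i
      exact hbx i
    have hF' : (p.1 / ∏ i, b i) ^ 2 = fv c x := by
      rw [div_pow, hF]
      field_simp
    refine ⟨b, (p.1 / ∏ i, b i, x), hb, ?_, ?_, hx, hx1, div_ne_zero hp0 hB, hF'⟩
    · refine Prod.ext ?_ (funext fun i => hbx i)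
      change p.1 = (∏ i, b i) * (p.1 / ∏ i, b i)
      field_simp
    · have h3 : ‖(p.1 / ∏ i, b i) ^ 2‖ ≤ 1 := by rw [hF']; exact fv_le hc hx
      rw [norm_pow] at h3
      exact (sq_le_one_iff₀ (norm_nonneg _)).1 h3
  obtain ⟨b, P, hb, hpP, P1, P2, P3, P4, P5⟩ := key p hp hp0
  obtain ⟨b', P', hb', hqP, P1', P2', P3', P4', P5'⟩ := key q hq' hq0
  obtain ⟨R, r1, r2, r3, r4, r5⟩ := start h hc hG P P1 P2 P3 P4 P5
  obtain ⟨R', r1', r2', r3', r4', r5'⟩ := start h hc hG P' P1' P2' P3' P4' P5'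
  have on : ∀ R : L × (Fin n → Fin 2 → L), ‖R.1‖ ≤ 1 → (∀ i j, ‖R.2 i j‖ ≤ 1) → π R.1 ≠ 0 →
      R.1 ^ 2 = fv c R.2 → On (fun α => π (c α)) (π R.1, fun i j => π (R.2 i j)) := by
    intro R r1 r2 r3 r4
    have hF : (π R.1) ^ 2 = fv (fun α => π (c α)) (fun i j => π (R.2 i j)) := by
      rw [← fv_red h hc r2, ← r4, h.sq r1]
    refine ⟨fun i hi => ?_, hF⟩
    have hF' := hF
    rw [fv_eq _ i] at hF'
    have hi' : (fun j => π (R.2 i j)) = 0 := hi
    rw [hi', qf_eq] at hF'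
    simp only [Pi.zero_apply] at hF'
    have : (π R.1) ^ 2 = 0 := by rw [hF']; ring
    exact r3 (pow_eq_zero_iff (two_ne_zero)|>.1 this)
  obtain ⟨z, hz1, hz2, hz3, hz4⟩ := hFQ k hq _ hG (π R.1, fun i j => π (R.2 i j))
    (π R'.1, fun i j => π (R'.2 i j)) (on R r1 r2 r3 r4) r3 (on R' r1' r2' r3' r4') r3'
  obtain ⟨S, s1, s2, s3⟩ := liftW (P := R) h h2 hc ⟨r1, r2, rfl, fun _ _ => rfl⟩ r4 hz3
  obtain ⟨S', s1', s2', s3'⟩ := liftW (P := R') h h2 hc ⟨r1', r2', rfl, fun _ _ => rfl⟩ r4' hz4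
  have hmid := hLC L k π h h2 n c hc S S' s1.h1 s1.h2 s1'.h1 s1'.h2 (by rw [s1.e1, s1'.e1])
    (fun i j => by rw [s1.e2, s1'.e2]) (by rw [s1.e1]; exact hz2) s2 s2'
  have htot := r5.append c (s3.append c (hmid.append c ((s3'.rev c r4').append c
    (r5'.rev c P5'))))
  rw [hpP, hqP]
  exact htot.scale c b b' hb hb' fun j => Or.inl (by simp)

end Pool.Agent.T6.H77.DC
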