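import Pool.Agent.T6.H77.DC.LOC

/-!
# Weak weak approximation for double covers of products of projective lines: assembly (helper77)
-/

set_option autoImplicit false

open Filter Topology

namespace Pool.Agent.T6.H77.DC

/-- the points of `w² = F(x)` with `w ≠ 0` such that the `n` conics through the point are smooth -/
def Sm {k : Type} [Field k] {n : ℕ} (c : (Fin n → Fin 3) → k) (p : k × (Fin n → Fin 2 → k)) :
    Prop := On c p ∧ p.1 ≠ 0 ∧ ∀ i, ds c i p.2 ≠ 0

/-- `X(K)` in the product of the `L v` -/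
def XK {K ι : Type} [Field K] {L : ι → Type} [∀ v, Field (L v)] (σ : ∀ v, K →+* L v) {n : ℕ}
    (c : (Fin n → Fin 3) → K) : Set (∀ v, L v × (Fin n → Fin 2 → L v)) :=
  {S | ∃ (w : K) (x : Fin n → Fin 2 → K), On c (w, x) ∧
    S = fun v => (σ v w, fun i j => σ v (x i j))}

/-- Good places: `L` is a complete ultrametric field with finite residue field `k` (via `π`) with at
least `q₀` elements, the coefficients `c` are integral and their reductions are good. -/
structure GoodPlace (q₀ : ℕ) {L k : Type} [NontriviallyNormedField L] [Field k] [Fintype k]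
    (π : L → k) {n : ℕ} (c : (Fin n → Fin 3) → L) : Prop where
  um : IsUltrametricDist L
  cs : CompleteSpace L
  res : DW.Res π
  card : q₀ ≤ Fintype.card k
  int : ∀ α, ‖c α‖ ≤ 1
  gd : Gd (fun α => π (c α))

/-- all solutions -/
def KP {K ι : Type} [Field K] {L : ι → Type} [∀ v, Field (L v)] (σ : ∀ v, K →+* L v) {n : ℕ}
    (c : (Fin n → Fin 3) → K) : Set (∀ v, L v × (Fin n → Fin 2 → L v)) :=
  {S | ∃ (w : K) (x : Fin n → Fin 2 → K), w ^ 2 = fv c x ∧
    S = fun v => (σ v w, fun i j => σ v (x i j))}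

section loc

variable {L k : Type} [NontriviallyNormedField L] [Field k] [Fintype k] {π : L → k} {n : ℕ}
  {c : (Fin n → Fin 3) → L} {q₀ : ℕ}

/-- `X` is smooth at its `L`-points -/
theorem GoodPlace.smooth (h : GoodPlace q₀ π c) {x : Fin n → Fin 2 → L} (hx : ∀ i, x i ≠ 0)
    (hF : fv c x = 0) : ∃ i j, bl c i x (x i) (Pi.single j 1) ≠ 0 := by
  have := h.um
  have := h.cs
  have hprim : ∀ i, ∃ (b : L) (x₀ : Fin 2 → L), b ≠ 0 ∧ x i = b • x₀ ∧
      (∀ j, ‖x₀ j‖ ≤ 1) ∧ ∃ j, x₀ j = 1 := by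
    intro i
    obtain ⟨m, hm⟩ := Finite.exists_max fun j => ‖x i j‖
    have hm0 : x i m ≠ 0 := by
      intro h0
      apply hx i
      funext j
      have := hm j
      rw [h0, norm_zero] at this
      exact norm_le_zero_iff.1 this
    refine ⟨x i m, (x i m)⁻¹ • x i, hm0, ?_, fun j => ?_, m, ?_⟩
    · rw [smul_smul, mul_inv_cancel₀ hm0, one_smul]
    · rw [Pi.smul_apply, smul_eq_mul, norm_mul, norm_inv, inv_mul_eq_div]
      exact div_le_one_of_le₀ (hm j) (norm_nonneg _)
    · rw [Pi.smul_apply, smul_eq_mul, inv_mul_cancel₀ hm0]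
  choose b x₀ hb hbx ix hx1 using hprim
  have hxe : x = fun i => b i • x₀ i := funext hbx
  have hB : ∏ i, b i ≠ 0 := Finset.prod_ne_zero_iff.2 fun i _ => hb i
  have hF0 : fv c x₀ = 0 := by
    rw [hxe, fv_sc] at hF
    exact (mul_eq_zero.1 hF).resolve_left (pow_ne_zero _ hB)
  obtain ⟨i, u, hu⟩ := h.gd.sm (fun i j => π (x₀ i j)) (fun i hi => by
      obtain ⟨j, hj⟩ := hx1 i
      have := congrFun hi j
      simp only [hj, h.res.one] at this
      exact one_ne_zero this) (by rw [← fv_red h.res h.int ix, hF0, h.res.zero])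
  by_contra hc
  push Not at hc
  apply hu
  have is : ∀ j a : Fin 2, ‖(Pi.single j 1 : Fin 2 → L) a‖ ≤ 1 := by
    intro j a
    by_cases hja : a = j
    · rw [hja, Pi.single_eq_same, norm_one]
    · rw [Pi.single_eq_of_ne hja, norm_zero]; exact zero_le_one
  have rs : ∀ j : Fin 2, (fun a => π ((Pi.single j 1 : Fin 2 → L) a)) = Pi.single j 1 := by
    intro j
    funext a
    by_cases hja : a = j
    · rw [hja, Pi.single_eq_same, Pi.single_eq_same, h.res.one]
    · rw [Pi.single_eq_of_ne hja, Pi.single_eq_of_ne hja, h.res.zero]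
  have hz : ∀ j, bl (fun α => π (c α)) i (fun i j => π (x₀ i j)) (fun j => π (x₀ i j))
      (Pi.single j 1) = 0 := by
    intro j
    have e1 := hc i j
    have e2 : bl c i x (x i) (Pi.single j 1) = (∏ a ∈ Finset.univ.erase i, b a) ^ 2 * b i *
        bl c i x₀ (x₀ i) (Pi.single j 1) := by
      rw [hxe]
      simp only [bl, cf_sc, Pi.smul_apply, smul_eq_mul]
      ring
    rw [e2] at e1
    have e3 : bl c i x₀ (x₀ i) (Pi.single j 1) = 0 :=
      (mul_eq_zero.1 e1).resolve_left (mul_ne_zero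
        (pow_ne_zero _ (Finset.prod_ne_zero_iff.2 fun a _ => hb a)) (hb i))
    have e4 := (bl_red h.res h.gd.two h.int ix i (ix i) (is j)).2
    rw [e3, h.res.zero, rs] at e4
    exact e4.symm
  have hue : u = u 0 • Pi.single 0 1 + u 1 • Pi.single 1 1 := by
    funext a
    fin_cases a <;> simp
  rw [hue, bl_pf, pf_comb, ← bl_pf, ← bl_pf, hz, hz]
  ring

end loc

theorem pt_one {K : Type} [Field K] {n : ℕ} (c : (Fin n → Fin 3) → K) {x : Fin n → Fin 2 → K}
    (hF : fv c x = 0) {i : Fin n} {u : Fin 2 → K} (hb : bl c i x (x i) u ≠ 0) :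
    ∃ x' : Fin n → Fin 2 → K, fv c x' = 1 := by
  refine ⟨Function.update x i ((1 - qf (cf c i x) u / bl c i x (x i) u ^ 2) • x i +
    (1 / bl c i x (x i) u) • u), ?_⟩
  have hq : qf (cf c i x) (x i) = 0 := by rw [← fv_eq, hF]
  rw [bl_pf] at hb
  rw [fv_update, qf_comb, hq, bl_pf]
  field_simp
  ring

theorem on_of {k : Type} [Field k] {n : ℕ} {c : (Fin n → Fin 3) → k} {w : k}
    {x : Fin n → Fin 2 → k} (hw : w ≠ 0) (h : w ^ 2 = fv c x) : On c (w, x) := by
  refine ⟨fun i hi => ?_, h⟩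
  have h' := h
  rw [fv_eq c i] at h'
  have hi' : x i = 0 := hi
  rw [hi', qf_eq] at h'
  simp only [Pi.zero_apply] at h'
  have : w ^ 2 = 0 := by rw [h']; ring
  exact hw (pow_eq_zero_iff (two_ne_zero)|>.1 this)

section glob

variable {K ι : Type} [Field K] {L k : ι → Type} [∀ v, NontriviallyNormedField (L v)]
  [∀ v, Field (k v)] [∀ v, Fintype (k v)] {σ : ∀ v, K →+* L v} {π : ∀ v, L v → k v} {n : ℕ}
  {c : (Fin n → Fin 3) → K}

theorem mem_xk (S : ∀ v, L v × (Fin n → Fin 2 → L v)) (w : ι) (h1 : ∀ i, (S w).2 i ≠ 0)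
    (h : S ∈ closure (KP σ c)) : S ∈ closure (XK σ c) := by
  have hO : IsOpen {S : ∀ v, L v × (Fin n → Fin 2 → L v) | ∀ i, (S w).2 i ≠ 0} := by
    simp only [Set.setOf_forall]
    refine isOpen_iInter_of_finite fun i => ?_
    exact isOpen_ne.preimage ((continuous_apply i).comp
      (continuous_snd.comp (continuous_apply w)))
  rw [mem_closure_iff] at h ⊢
  intro o ho hSo
  obtain ⟨R, ⟨hR1, hR2⟩, x, y, hxy, rfl⟩ := h _ (ho.inter hO) ⟨hSo, h1⟩
  refine ⟨_, hR1, x, y, ⟨fun i hi => ?_, hxy⟩, rfl⟩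
  apply hR2 i
  funext j
  have := congrFun hi j
  change σ w (y i j) = 0
  change y i j = 0 at this
  rw [this, map_zero]

/-- approximation from a rational point -/
theorem approx {q₀ : ℕ} {w : List (Fin n)}
    (hLOC : ∀ (L k : Type)
      [NontriviallyNormedField L] [IsUltrametricDist L] [CompleteSpace L] [Field k] [Fintype k]
      (π : L → k), DW.Res π → q₀ ≤ Fintype.card k → ∀ c : (Fin n → Fin 3) → L,
      (∀ α, ‖c α‖ ≤ 1) → Gd (fun α => π (c α)) → ∀ p q : L × (Fin n → Fin 2 → L), On c p →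
      p.1 ≠ 0 → On c q → q.1 ≠ 0 → Wd c w p q)
    (hDEN : StmDEN) (hCLO : StmCLO) (hσ : DenseRange fun (b : K) (v : ι) => σ v b)
    (h2 : (2 : K) ≠ 0) (G : Set ι)
    (hG : ∀ v ∈ G, GoodPlace q₀ (π v) (fun α => σ v (c α)))
    (z : K) (x : Fin n → Fin 2 → K) (hz : z ≠ 0) (hxy : z ^ 2 = fv c x)
    (hS : ∀ v ∉ G, Sm (fun α => σ v (c α)) (σ v z, fun i j => σ v (x i j)))
    (S : ∀ v, L v × (Fin n → Fin 2 → L v))
    (hS1 : ∀ v ∉ G, S v = (σ v z, fun i j => σ v (x i j)))
    (hS2 : ∀ v ∈ G, On (fun α => σ v (c α)) (S v)) : S ∈ closure (KP σ c) := by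
  classical
  have key : ∀ S : ∀ v, L v × (Fin n → Fin 2 → L v),
      (∀ v ∉ G, S v = (σ v z, fun i j => σ v (x i j))) →
      (∀ v ∈ G, On (fun α => σ v (c α)) (S v) ∧ (S v).1 ≠ 0) → S ∈ closure (KP σ c) := by
    intro S hS1 hS2
    refine hCLO K ι L σ hσ n c h2 w G (fun v => (σ v z, fun i j => σ v (x i j))) S ?_ ?_ ?_
    · intro v hv
      have := (hG v hv).um
      have := (hG v hv).cs
      have hF : (σ v z) ^ 2 = fv (fun α => σ v (c α)) (fun i j => σ v (x i j)) := by
        rw [← fv_map, ← hxy, map_pow]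
      have hz' : σ v z ≠ 0 := (map_ne_zero (σ v)).2 hz
      exact ⟨hF, hLOC (L v) (k v) (π v) (hG v hv).res (hG v hv).card _ (hG v hv).int
        (hG v hv).gd _ _ (on_of hz' hF) hz' (hS2 v hv).1 (hS2 v hv).2⟩
    · intro v hv
      obtain ⟨s1, s2, s3⟩ := hS v hv
      exact ⟨(hS1 v hv).symm, s1, s2, s3⟩
    · exact subset_closure ⟨z, x, hxy, rfl⟩
  have happ : ∀ (N : ℕ) (v : ι), ∃ R : L v × (Fin n → Fin 2 → L v),
      (v ∉ G → R = S v) ∧ (v ∈ G → (On (fun α => σ v (c α)) R ∧ R.1 ≠ 0) ∧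
        ‖R.1 - (S v).1‖ < 1 / (N + 1) ∧ ∀ i j, ‖R.2 i j - (S v).2 i j‖ < 1 / (N + 1)) := by
    intro N v
    have hpos : (0 : ℝ) < 1 / (N + 1) := by positivity
    by_cases hv : v ∈ G
    · have := (hG v hv).um
      have := (hG v hv).cs
      by_cases h0 : (S v).1 = 0
      · have hF : fv (fun α => σ v (c α)) (S v).2 = 0 := by
          rw [← (hS2 v hv).2, h0]
          ring
        obtain ⟨i, j, hj⟩ := (hG v hv).smooth (hS2 v hv).1 hF
        obtain ⟨ω, x', e1, e2, e3, e4⟩ := hDEN (L v) n _ (S v).2 (hS2 v hv).1 hF i _ hj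
          (1 / (N + 1)) hpos
        refine ⟨(ω, x'), fun h => absurd hv h, fun _ => ⟨⟨e2, e1⟩, ?_, e4⟩⟩
        rw [h0, sub_zero]
        exact e3
      · refine ⟨S v, fun _ => rfl, fun _ => ⟨⟨hS2 v hv, h0⟩, ?_, fun i j => ?_⟩⟩
        · rw [sub_self, norm_zero]; exact hpos
        · rw [sub_self, norm_zero]; exact hpos
    · exact ⟨S v, fun _ => rfl, fun h => absurd h hv⟩
  choose R hR1 hR2 using happ
  have hRcl : ∀ N, (fun v => R N v) ∈ closure (KP σ c) := by
    intro N
    refine key _ (fun v hv => ?_) (fun v hv => (hR2 N v hv).1)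
    rw [hR1 N v hv, hS1 v hv]
  have hlim : Tendsto (fun N v => R N v) atTop (𝓝 S) := by
    rw [tendsto_pi_nhds]
    intro v
    by_cases hv : v ∈ G
    · have k1 : Tendsto (fun N => (R N v).1) atTop (𝓝 (S v).1) := by
        rw [tendsto_iff_norm_sub_tendsto_zero]
        exact squeeze_zero (fun n => norm_nonneg _) (fun n => (hR2 n v hv).2.1.le)
          tendsto_one_div_add_atTop_nhds_zero_nat
      have k2 : Tendsto (fun N => (R N v).2) atTop (𝓝 (S v).2) := by
        rw [tendsto_pi_nhds]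
        intro i
        rw [tendsto_pi_nhds]
        intro j
        rw [tendsto_iff_norm_sub_tendsto_zero]
        exact squeeze_zero (fun n => norm_nonneg _) (fun n => ((hR2 n v hv).2.2 i j).le)
          tendsto_one_div_add_atTop_nhds_zero_nat
      exact k1.prodMk_nhds k2
    · have : (fun n => R n v) = fun _ => S v := funext fun n => by
        rw [hR1 n v hv]
      rw [this]
      exact tendsto_const_nhds
  have := mem_closure_of_tendsto hlim (Eventually.of_forall hRcl)
  rwa [closure_closure] at this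

end glob

theorem main (hLOC : StmLOC) (hDEN : StmDEN) (hCLO : StmCLO) : ∀ n : ℕ, 0 < n → ∃ q₀ : ℕ,
    ∀ (K ι : Type) [Field K] (L k : ι → Type) [∀ v, NontriviallyNormedField (L v)]
      [∀ v, Field (k v)] [∀ v, Fintype (k v)] (σ : ∀ v, K →+* L v) (π : ∀ v, L v → k v)
      (c : (Fin n → Fin 3) → K), (DenseRange fun (b : K) (v : ι) => σ v b) → ∀ G : Set ι,
      (∀ v ∈ G, GoodPlace q₀ (π v) (fun α => σ v (c α))) → ∀ T ∈ closure (XK σ c),
      (∀ v ∉ G, Sm (fun α => σ v (c α)) (T v)) →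
      ∀ S : ∀ v, L v × (Fin n → Fin 2 → L v), (∀ v ∉ G, S v = T v) →
      (∀ v ∈ G, On (fun α => σ v (c α)) (S v)) → S ∈ closure (XK σ c) := by
  classical
  intro n hn
  obtain ⟨q₀, w, hloc⟩ := hLOC n hn
  refine ⟨q₀, ?_⟩
  intro K ι _ L k _ _ _ σ π c hσ G hG T hT hTo S hSG hS
  by_cases hne : G.Nonempty
  swap
  · have : S = T := funext fun v => hSG v fun hv => hne ⟨v, hv⟩
    rw [this]
    exact hT
  obtain ⟨v₀, hv₀⟩ := hne
  refine mem_xk S v₀ (hS v₀ hv₀).1 ?_
  have h2 : (2 : K) ≠ 0 := by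
    have := (hG v₀ hv₀).um
    have h3 := (hG v₀ hv₀).res.norm_two (hG v₀ hv₀).gd.two
    intro h0
    rw [← map_ofNat (σ v₀) 2, h0, map_zero, norm_zero] at h3
    exact zero_ne_one h3
  -- the rational points
  have main1 : ∀ (z : K) (x : Fin n → Fin 2 → K), On c (z, x) →
      (∀ v ∉ G, Sm (fun α => σ v (c α)) (σ v z, fun i j => σ v (x i j))) →
      (fun v => if v ∈ G then S v else (σ v z, fun i j => σ v (x i j))) ∈ closure (KP σ c) := by
    intro z x hO hSm
    by_cases hz : z = 0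
    · have hall : ∀ v, v ∈ G := by
        intro v
        by_contra hv
        exact (hSm v hv).2.1 (by rw [hz]; exact map_zero _)
      have hF : fv c x = 0 := by
        have := hO.2
        change z ^ 2 = fv c x at this
        rw [← this, hz]
        ring
      obtain ⟨i, j, hj⟩ := (hG v₀ hv₀).smooth (x := fun i j => σ v₀ (x i j)) (fun i hi => by
        apply hO.1 i
        funext j
        exact (map_eq_zero (σ v₀)).1 (congrFun hi j)) (by rw [← fv_map, hF, map_zero])
      have es : (fun a => σ v₀ ((Pi.single j 1 : Fin 2 → K) a)) = Pi.single j 1 := by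
        funext a
        by_cases hja : a = j
        · rw [hja, Pi.single_eq_same, Pi.single_eq_same, map_one]
        · rw [Pi.single_eq_of_ne hja, Pi.single_eq_of_ne hja, map_zero]
      obtain ⟨x', hx'⟩ := pt_one c hF (i := i) (u := Pi.single j 1) (fun h0 => by
        apply hj
        rw [← es, ← bl_map, h0, map_zero])
      refine approx hloc hDEN hCLO hσ h2 G hG 1 x' one_ne_zero (by rw [hx']; ring)
        (fun v hv => absurd (hall v) hv) _ (fun v hv => absurd (hall v) hv) (fun v hv => ?_)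
      simp only [if_pos hv]
      exact hS v hv
    · exact approx hloc hDEN hCLO hσ h2 G hG z x hz hO.2 hSm _ (fun v hv => if_neg hv)
        (fun v hv => by rw [if_pos hv]; exact hS v hv)
  -- the limit
  have hΘ : Continuous fun (R : ∀ v, L v × (Fin n → Fin 2 → L v)) v =>
      if v ∈ G then S v else R v := by
    refine continuous_pi fun v => ?_
    by_cases hv : v ∈ G
    · simp only [if_pos hv]
      exact continuous_const
    · simp only [if_neg hv]
      exact continuous_apply v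
  have hST : S = (fun (R : ∀ v, L v × (Fin n → Fin 2 → L v)) v =>
      if v ∈ G then S v else R v) T := by
    funext v
    by_cases hv : v ∈ G
    · simp only [if_pos hv]
    · simp only [if_neg hv]
      exact hSG v hv
  have hfin : ∀ U : Set (∀ v, L v × (Fin n → Fin 2 → L v)), IsOpen U → T ∈ U →
      (∀ (z : K) (x : Fin n → Fin 2 → K), On c (z, x) →
        (fun v => (σ v z, fun i j => σ v (x i j))) ∈ U →
        ∀ v ∉ G, Sm (fun α => σ v (c α)) (σ v z, fun i j => σ v (x i j))) →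
      S ∈ closure (KP σ c) := by
    intro U hU hTU hUU
    have h3 : T ∈ closure (XK σ c ∩ U) := by
      rw [Set.inter_comm]
      exact hU.inter_closure ⟨hTU, hT⟩
    rw [hST]
    have h4 := map_mem_closure hΘ h3 (t := closure (KP σ c)) (by
      rintro R ⟨⟨z, x, hO, rfl⟩, hRU⟩
      exact main1 z x hO (hUU z x hO hRU))
    rwa [closure_closure] at h4
  by_cases hne' : ∃ v₁, v₁ ∉ G
  · obtain ⟨v₁, hv₁⟩ := hne'
    obtain ⟨-, t4, t5⟩ := hTo v₁ hv₁
    have hc2 : ∀ i, Continuous fun R : ∀ v, L v × (Fin n → Fin 2 → L v) =>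
        ds (fun α => σ v₁ (c α)) i (R v₁).2 := by
      intro i
      have : Continuous fun x : Fin n → Fin 2 → L v₁ => ds (fun α => σ v₁ (c α)) i x := by
        unfold ds
        exact ((cf_cont _ i 1).pow 2).sub ((continuous_const.mul (cf_cont _ i 0)).mul
          (cf_cont _ i 2))
      exact this.comp (continuous_snd.comp (continuous_apply v₁))
    refine hfin ({R | (R v₁).1 ≠ 0} ∩ ⋂ i, {R | ds (fun α => σ v₁ (c α)) i (R v₁).2 ≠ 0})
      ((isOpen_ne.preimage (continuous_fst.comp (continuous_apply v₁))).inter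
        (isOpen_iInter_of_finite fun i => isOpen_ne.preimage (hc2 i)))
      ⟨t4, Set.mem_iInter.2 t5⟩ ?_
    rintro z x hO ⟨u1, u2⟩ v hv
    have hz : z ≠ 0 := by
      rintro rfl
      exact u1 (map_zero _)
    have hF : (σ v z) ^ 2 = fv (fun α => σ v (c α)) (fun i j => σ v (x i j)) := by
      rw [← fv_map, ← hO.2, map_pow]
    have hz' : σ v z ≠ 0 := (map_ne_zero (σ v)).2 hz
    refine ⟨on_of hz' hF, hz', fun i => ?_⟩
    change ds _ i (fun i j => σ v (x i j)) ≠ 0
    rw [← ds_map]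
    refine (map_ne_zero (σ v)).2 fun h0 => ?_
    have := Set.mem_iInter.1 u2 i
    apply this
    change ds _ i (fun i j => σ v₁ (x i j)) = 0
    rw [← ds_map, h0, map_zero]
  · push Not at hne'
    exact hfin Set.univ isOpen_univ (Set.mem_univ _)
      (fun z x _ _ v hv => absurd (hne' v) hv)

end Pool.Agent.T6.H77.DC
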