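import Pool.Agent.T6.H77.DC.Defs

/-!
# Double covers of products of projective lines: statements of the modules (helper77)
-/

set_option autoImplicit false

namespace Pool.Agent.T6.H77.DC

/-- W2: two binary quadratic forms which represent nonzero squares simultaneously do so often -/
def StmW2 : Prop := ∃ q₀ : ℕ, ∀ (k : Type) [Field k] [Fintype k], (2 : k) ≠ 0 →
  q₀ ≤ Fintype.card k → ∀ f g : Fin 3 → k, (∃ (u : Fin 2 → k) (w : k), w ≠ 0 ∧ w ^ 2 = qf f u) →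
  (∃ (u : Fin 2 → k) (w : k), w ≠ 0 ∧ w ^ 2 = qf g u) →
  ((∃ e e', f e * g e' ≠ f e' * g e) ∨ f = g) →
  Fintype.card k ≤ 8 * {t : k | (∃ w, w ≠ 0 ∧ w ^ 2 = qf f ![1, t]) ∧
    ∃ w, w ≠ 0 ∧ w ^ 2 = qf g ![1, t]}.ncard

/-- SEL: selection of parameters -/
def StmSEL : Prop := ∀ (k : Type) [Field k] (n d N : ℕ) (R : Fin N → (Fin n → k) → k)
  (v₀ : Fin n → k) (Inv : ℕ → (Fin n → k) → Prop),
  (∀ (s : Fin N) (i : Fin n) (v : Fin n → k), ∃ p : Polynomial k, p.natDegree ≤ d ∧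
    ∀ t, R s (Function.update v i t) = p.eval t) →
  (∀ s, R s v₀ ≠ 0) → Inv 0 v₀ →
  (∀ (i : Fin n) (v : Fin n → k), Inv i.val v → (∀ s, R s v ≠ 0) →
    (∀ j : Fin n, i.val ≤ j.val → v j = v₀ j) →
    ∃ A : Finset k, N * d < A.card ∧ ∀ t ∈ A, Inv (i.val + 1) (Function.update v i t)) →
  ∃ v, Inv n v ∧ ∀ s, R s v ≠ 0

/-- FQ: connectivity over large finite fields -/
def StmFQ : Prop := ∀ n : ℕ, 0 < n → ∃ q₀ : ℕ, ∀ (k : Type) [Field k] [Fintype k],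
  q₀ ≤ Fintype.card k → ∀ c : (Fin n → Fin 3) → k, Gd c →
  ∀ p p' : k × (Fin n → Fin 2 → k), On c p → p.1 ≠ 0 → On c p' → p'.1 ≠ 0 →
  ∃ h : k × (Fin n → Fin 2 → k), On c h ∧ h.1 ≠ 0 ∧
    Wd c (List.finRange n ++ List.finRange n) p h ∧
    Wd c (List.finRange n ++ List.finRange n) p' h

/-- LC: points with the same reduction are joined by moves -/
def StmLC : Prop := ∀ (L k : Type) [NontriviallyNormedField L] [IsUltrametricDist L]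
  [CompleteSpace L] [Field k] (π : L → k), DW.Res π → (2 : k) ≠ 0 →
  ∀ (n : ℕ) (c : (Fin n → Fin 3) → L), (∀ α, ‖c α‖ ≤ 1) → ∀ p p' : L × (Fin n → Fin 2 → L),
  ‖p.1‖ ≤ 1 → (∀ i j, ‖p.2 i j‖ ≤ 1) → ‖p'.1‖ ≤ 1 → (∀ i j, ‖p'.2 i j‖ ≤ 1) →
  π p.1 = π p'.1 → (∀ i j, π (p.2 i j) = π (p'.2 i j)) → π p.1 ≠ 0 →
  p.1 ^ 2 = fv c p.2 → p'.1 ^ 2 = fv c p'.2 →
  Wd c ((List.finRange n).flatMap fun i => [i, i]) p p'

/-- DEN: smooth points of the branch locus are limits of points outside of it -/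
def StmDEN : Prop := ∀ (L : Type) [NontriviallyNormedField L] (n : ℕ) (c : (Fin n → Fin 3) → L)
  (x : Fin n → Fin 2 → L), (∀ i, x i ≠ 0) → fv c x = 0 → ∀ (i : Fin n) (u : Fin 2 → L),
  bl c i x (x i) u ≠ 0 → ∀ ε : ℝ, 0 < ε → ∃ (w : L) (x' : Fin n → Fin 2 → L), w ≠ 0 ∧
    On c (w, x') ∧ ‖w‖ < ε ∧ ∀ i j, ‖x' i j - x i j‖ < ε

/-- CLO: the closure of the rational points is stable under moves at the places of `G` -/
def StmCLO : Prop := ∀ (K ι : Type) [Field K] (L : ι → Type) [∀ v, NontriviallyNormedField (L v)]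
  (σ : ∀ v, K →+* L v), (DenseRange fun (b : K) (v : ι) => σ v b) →
  ∀ (n : ℕ) (c : (Fin n → Fin 3) → K), (2 : K) ≠ 0 → ∀ (w : List (Fin n)) (G : Set ι)
  (P Q : ∀ v, L v × (Fin n → Fin 2 → L v)),
  (∀ v ∈ G, (P v).1 ^ 2 = fv (fun α => σ v (c α)) (P v).2 ∧
    Wd (fun α => σ v (c α)) w (P v) (Q v)) →
  (∀ v ∉ G, P v = Q v ∧ On (fun α => σ v (c α)) (P v) ∧ (P v).1 ≠ 0 ∧
    ∀ i, ds (fun α => σ v (c α)) i (P v).2 ≠ 0) →
  P ∈ closure {S : ∀ v, L v × (Fin n → Fin 2 → L v) | ∃ (w : K) (x : Fin n → Fin 2 → K),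
    w ^ 2 = fv c x ∧ S = fun v => (σ v w, fun i j => σ v (x i j))} →
  Q ∈ closure {S : ∀ v, L v × (Fin n → Fin 2 → L v) | ∃ (w : K) (x : Fin n → Fin 2 → K),
    w ^ 2 = fv c x ∧ S = fun v => (σ v w, fun i j => σ v (x i j))}

end Pool.Agent.T6.H77.DC
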